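import Pool.Agent.H20.SM.TZ

/-!
# A cofinal family of Galois extensions: targets, the values at every height
-/

set_option autoImplicit false

open NumberField NumberField.InfinitePlace Complex Filter Topology MeasureTheory

namespace Pool.Agent.H20.SM

open Pool.Agent.H28.RC Pool.Agent.H25.HK Pool.Agent.H37.CV Pool.Agent.H65.CRZ Pool.Agent.H65.CRG

/-- the first sum at the height `t` -/
noncomputable def A1t {K : Type} [Field K] [NumberField K] (X t : ℝ) (ψ : Ideal (𝓞 K) → ℂ) : ℂ :=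
  ∑' a : NI K, ψ a.1 * ((nm a.1 : ℝ) : ℂ) ^ (-(1 / 2 + t * I)) * wf (nm a.1 / X)

/-- (AF1t) the first approximate functional equation at the height `t`. -/
def T_AF1t : Prop :=
  ∀ (K : Type) [Field K] [NumberField K] [IsTotallyComplex K] (A : ℕ) (T : ℝ), 1 ≤ A → 0 < T →
    ∃ C : ℝ, ∀ χ : RCC K, χ.f ≠ ⊤ → ∀ Z : ℂ → ℂ, IsEnt χ Z → ∀ X t : ℝ, 0 < X → |t| ≤ T →
      ‖Z (1 / 2 + t * I) - A1t X t χ.ψ‖ ≤ C * (cnd K χ.f / X) ^ A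

/-- (FMOt) the first moment opened. -/
def T_FMOt : Prop :=
  ∀ (K : Type) [Field K] [NumberField K] [IsTotallyComplex K] (m d : Ideal (𝓞 K)) (X M t : ℝ),
    m ≠ ⊥ → m ≤ d → 0 < X → 1 ≤ M →
    Summable (fun n : {n : Ideal (𝓞 K) // (n, ⊤) ∈ CP m d} =>
      ‖lam X M n.1‖ * nm n.1 ^ (-(1 / 2) : ℝ)) ∧
    ∑ᶠ ψ ∈ Ch m d, A1t X t ψ * pol M (cu K M t) ψ =
      nc m d * ∑' n : {n : Ideal (𝓞 K) // (n, ⊤) ∈ CP m d},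
        lam X M n.1 * ((nm n.1 : ℝ) : ℂ) ^ (-(1 / 2 + t * I))

/-- (F1t) the sums of the first moment. -/
def T_F1t : Prop :=
  ∀ (F : Type) [Field F] [NumberField F] [IsTotallyComplex F] [IsGalois ℚ F]
    (A : ℕ) (ε₁ η : ℝ), 1 ≤ A → 0 < ε₁ → ε₁ < 1 / 2 → 0 < η →
    ∃ x₀ : ℝ, ∀ (x : ℝ) (q : ℕ), x₀ ≤ x → Sp F A x q → ∀ t : ℝ,
      ‖(∑' n : {n : Ideal (𝓞 F) // (n, ⊤) ∈ CP (qi F q) (qi F q)},
        lam (Xr F q) (Mo F ε₁ q) n.1 * ((nm n.1 : ℝ) : ℂ) ^ (-(1 / 2 + t * I))) - 1‖ ≤ η ∧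
      ∀ d : Ideal (𝓞 F), qi F q ≤ d → d ≠ qi F q → (nc (qi F q) d : ℝ) *
        ‖∑' n : {n : Ideal (𝓞 F) // (n, ⊤) ∈ CP (qi F q) d},
          lam (Xr F q) (Mo F ε₁ q) n.1 * ((nm n.1 : ℝ) : ℂ) ^ (-(1 / 2 + t * I))‖ ≤
      nc (qi F q) (qi F q) * (x ^ (1 / 8 : ℝ) * pd q d ^ (-(3 / 4) : ℝ) +
        nm (qi F q) ^ (-(1 / 32) : ℝ))

/-- (FMt) the first moment at the height `t`. -/
def T_FMt : Prop :=
  ∀ (F : Type) [Field F] [NumberField F] [IsTotallyComplex F] [IsGalois ℚ F]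
    (A : ℕ) (ε₁ η T : ℝ), 1 ≤ A → 0 < ε₁ → ε₁ < 1 / 2 → 0 < η → 0 < T →
    ∃ x₀ : ℝ, ∀ (x : ℝ) (q : ℕ), x₀ ≤ x → Sp F A x q → ∀ t : ℝ, |t| ≤ T →
      ‖(∑ᶠ χ ∈ Pr F (qi F q), Zx χ (1 / 2 + t * I) *
          pol (Mo F ε₁ q) (cu F (Mo F ε₁ q) t) χ.ψ) - nc (qi F q) (qi F q)‖ ≤
        η * nc (qi F q) (qi F q)

/-- (SMt) the second moment at the height `t`. -/
def T_SMt : Prop :=
  ∀ (F : Type) [Field F] [NumberField F] [IsTotallyComplex F] [IsGalois ℚ F],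
    ∃ A₀ : ℕ, ∀ (A : ℕ) (ε₁ η T : ℝ), A₀ ≤ A → 0 < ε₁ → ε₁ < 1 / 2 → 0 < η → 0 < T →
    ∃ x₀ : ℝ, ∀ (x : ℝ) (q : ℕ), x₀ ≤ x → Sp F A x q → ∀ t : ℝ, |t| ≤ T →
      ∑ᶠ χ ∈ Pr F (qi F q), ‖Zx χ (1 / 2 + t * I)‖ ^ 2 *
          ‖pol (Mo F ε₁ q) (cu F (Mo F ε₁ q) t) χ.ψ‖ ^ 2 ≤
        (1 + 1 / (1 / 2 - ε₁) + η) * nc (qi F q) (qi F q)

/-- (FINt) the proportion of the primitive characters, at every height. -/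
def T_FINt : Prop :=
  ∀ (F : Type) [Field F] [NumberField F] [IsTotallyComplex F] [IsGalois ℚ F],
    ∃ A₀ : ℕ, ∀ (A : ℕ) (ε T : ℝ), A₀ ≤ A → 0 < ε → 0 < T →
    ∃ x₀ : ℝ, ∀ (x : ℝ) (q : ℕ), x₀ ≤ x → Sp F A x q →
      (Pr F (qi F q)).Finite ∧ 0 < (Pr F (qi F q)).ncard ∧ ∀ t : ℝ, |t| ≤ T →
      (1 / 3 - ε) * (Pr F (qi F q)).ncard ≤
        ({χ | χ ∈ Pr F (qi F q) ∧ Zx χ (1 / 2 + t * I) ≠ 0}.ncard : ℝ)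

/-- (FGt) values and zeros of the Artin `L`-functions. -/
def T_FGt : Prop :=
  ∀ (F : Type) [Field F] [NumberField F] [IsTotallyComplex F] [IsGalois ℚ F],
    ∃ A₀ : ℕ, ∀ (A : ℕ) (ε : ℝ), A₀ ≤ A → 0 < ε → ∃ T₀ : ℝ, 0 < T₀ ∧ ∀ T : ℝ, T₀ ≤ T →
    ∃ x₀ : ℝ, ∀ (x : ℝ) (q : ℕ), x₀ ≤ x → Sp F A x q →
      ∀ (L : Type) [Field L] [NumberField L] [Algebra F L] [IsGalois ℚ L],
      Pool.Agent.H37.CA.IsRCF F L (qi F q) →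
      (Pool.Agent.H37.CA.Irr (L ≃ₐ[ℚ] L)).Finite ∧
      ∃ (U : Set ((L ≃ₐ[ℚ] L) → ℂ)) (Λ : ((L ≃ₐ[ℚ] L) → ℂ) → ℂ → ℂ),
        U ⊆ Pool.Agent.H37.CA.Irr (L ≃ₐ[ℚ] L) ∧
        (1 - ε) * (Pool.Agent.H37.CA.Irr (L ≃ₐ[ℚ] L)).ncard ≤ U.ncard ∧ 0 < U.ncard ∧
        (∀ f ∈ U, f 1 = Module.finrank ℚ F ∧ Pool.Agent.H37.CA.nu f = 0 ∧
          Differentiable ℂ (Λ f) ∧
          (∀ (D : Pool.Agent.H37.CA.Frb L) (V : Type) [AddCommGroup V] [Module ℂ V]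
            [FiniteDimensional ℂ V] (ρ : Representation ℂ (L ≃ₐ[ℚ] L) V), f = ρ.character →
            ∀ s : ℂ, 1 < s.re → HasProd (fun p => (D.rep V ρ).euler p s) (Λ f s)) ∧
          {ρ : ℂ | ρ ∈ St T ∧ Λ f ρ = 0}.Finite ∧
          zc (Λ f) (St T) ≤
            (1 + ε) * (T / Real.pi * ((Module.finrank ℚ F : ℝ) / 2 * Real.log q))) ∧
        (345 / 1000 - ε) *
            (T / Real.pi * ((Module.finrank ℚ F : ℝ) / 2 * Real.log q)) * U.ncard ≤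
          ∑ᶠ f ∈ U, ((SZ (Λ f) 0 T).ncard : ℝ) ∧
        (345 / 1000 - ε) * (∑ᶠ f ∈ U, zc (Λ f) (St T)) ≤
          ∑ᶠ f ∈ U, ((SZ (Λ f) 0 T).ncard : ℝ) ∧
        ∀ t : ℝ, |t| ≤ T →
          (1 / 3 - ε) * (Pool.Agent.H37.CA.Irr (L ≃ₐ[ℚ] L)).ncard ≤
            ({f | f ∈ U ∧ Λ f (1 / 2 + t * I) ≠ 0}.ncard : ℝ)

/-- (MAINt) values and zeros for a cofinal family. -/
def T_MAINt : Prop :=
  ∀ (F : Type) [Field F] [NumberField F] [IsTotallyComplex F] [IsGalois ℚ F] (ε : ℝ),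
    0 < ε → ∃ T₀ : ℝ, 0 < T₀ ∧ ∀ (T : ℝ) (N : ℕ), T₀ ≤ T →
    ∃ q : ℕ, N ≤ q ∧ Squarefree q ∧ (∀ p ∈ q.primeFactors, N ≤ p ∧ Spl F p) ∧
      ∀ (L : Type) [Field L] [NumberField L] [Algebra F L] [IsGalois ℚ L],
      Pool.Agent.H37.CA.IsRCF F L (qi F q) →
      (Pool.Agent.H37.CA.Irr (L ≃ₐ[ℚ] L)).Finite ∧
      ∃ (U : Set ((L ≃ₐ[ℚ] L) → ℂ)) (Λ : ((L ≃ₐ[ℚ] L) → ℂ) → ℂ → ℂ),
        U ⊆ Pool.Agent.H37.CA.Irr (L ≃ₐ[ℚ] L) ∧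
        (1 - ε) * (Pool.Agent.H37.CA.Irr (L ≃ₐ[ℚ] L)).ncard ≤ U.ncard ∧ 0 < U.ncard ∧
        (∀ f ∈ U, f 1 = Module.finrank ℚ F ∧ Pool.Agent.H37.CA.nu f = 0 ∧
          Differentiable ℂ (Λ f) ∧
          (∀ (D : Pool.Agent.H37.CA.Frb L) (V : Type) [AddCommGroup V] [Module ℂ V]
            [FiniteDimensional ℂ V] (ρ : Representation ℂ (L ≃ₐ[ℚ] L) V), f = ρ.character →
            ∀ s : ℂ, 1 < s.re → HasProd (fun p => (D.rep V ρ).euler p s) (Λ f s)) ∧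
          {ρ : ℂ | ρ ∈ St T ∧ Λ f ρ = 0}.Finite ∧
          zc (Λ f) (St T) ≤
            (1 + ε) * (T / Real.pi * ((Module.finrank ℚ F : ℝ) / 2 * Real.log q))) ∧
        (345 / 1000 - ε) *
            (T / Real.pi * ((Module.finrank ℚ F : ℝ) / 2 * Real.log q)) * U.ncard ≤
          ∑ᶠ f ∈ U, ((SZ (Λ f) 0 T).ncard : ℝ) ∧
        (345 / 1000 - ε) * (∑ᶠ f ∈ U, zc (Λ f) (St T)) ≤
          ∑ᶠ f ∈ U, ((SZ (Λ f) 0 T).ncard : ℝ) ∧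
        ∀ t : ℝ, |t| ≤ T →
          (1 / 3 - ε) * (Pool.Agent.H37.CA.Irr (L ≃ₐ[ℚ] L)).ncard ≤
            ({f | f ∈ U ∧ Λ f (1 / 2 + t * I) ≠ 0}.ncard : ℝ)

theorem pf_MAINt (hPOOL : T_POOL) (hFG : T_FGt) : T_MAINt := by
  intro F _ _ _ _ ε hε
  obtain ⟨A₁, h'⟩ := hFG F
  obtain ⟨A, hA⟩ : ∃ A : ℕ, A = max A₁ 1 := ⟨_, rfl⟩
  have hA1 : A₁ ≤ A := by rw [hA]; exact le_max_left _ _
  obtain ⟨T₀, hT₀, h2⟩ := h' A ε hA1 hε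
  refine ⟨T₀, hT₀, fun T N hT => ?_⟩
  obtain ⟨x₂, h2⟩ := h2 T hT
  obtain ⟨x, q, hx, hq⟩ := hPOOL F A (max x₂ (max ((N : ℝ) ^ 2) (Real.exp 1)))
  have hx2 : x₂ ≤ x := (le_max_left _ _).trans hx
  have hx3 : (N : ℝ) ^ 2 ≤ x := ((le_max_left _ _).trans (le_max_right _ _)).trans hx
  have hx4 : Real.exp 1 ≤ x := ((le_max_right _ _).trans (le_max_right _ _)).trans hx
  have h3 : ∀ p ∈ q.primeFactors, N ≤ p := fun p hp => by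
    have h4 : (N : ℝ) ≤ (p : ℝ) := (Real.le_sqrt_of_sq_le hx3).trans (hq.low p hp)
    exact_mod_cast h4
  have hlog : 1 ≤ Real.log x := by
    rw [← Real.log_exp 1]
    exact Real.log_le_log (Real.exp_pos _) hx4
  have hcard : (1 : ℝ) ≤ (q.primeFactors.card : ℝ) :=
    (one_le_pow₀ hlog).trans hq.lo
  have hcard' : 0 < q.primeFactors.card := by
    have : (0 : ℝ) < (q.primeFactors.card : ℝ) := by linarith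
    exact_mod_cast this
  obtain ⟨p, hp⟩ := Finset.card_pos.mp hcard'
  have h4 : p ≤ q := Nat.le_of_dvd (Nat.pos_of_ne_zero hq.sq.1.ne_zero)
    (Nat.dvd_of_mem_primeFactors hp)
  refine ⟨q, (h3 p hp).trans h4, hq.sq.1, fun p hp => ⟨h3 p hp, hq.sq.2 p hp⟩,
    fun L _ _ _ _ hL => h2 x q hx2 hq L hL⟩

end Pool.Agent.H20.SM
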