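import Pool.Agent.H20.SM.TW

/-!
# A cofinal family of Galois extensions: the last target (`A₀` may depend on `ε`)
-/

set_option autoImplicit false

open NumberField NumberField.InfinitePlace Complex Filter Topology MeasureTheory

namespace Pool.Agent.H20.SM

open Pool.Agent.H28.RC Pool.Agent.H25.HK Pool.Agent.H37.CV Pool.Agent.H65.CRZ Pool.Agent.H65.CRG

/-- (FGv) values, orders and zeros of the Artin `L`-functions. -/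
def T_FGv : Prop :=
  ∃ κ : ℝ → ℕ, ∀ (F : Type) [Field F] [NumberField F] [IsTotallyComplex F] [IsGalois ℚ F]
    (ε : ℝ), 0 < ε → ∃ A₀ : ℕ, ∀ A : ℕ, A₀ ≤ A → ∃ T₀ : ℝ, 0 < T₀ ∧ ∀ T : ℝ, T₀ ≤ T →
    ∃ x₀ : ℝ, ∀ (x : ℝ) (q : ℕ), x₀ ≤ x → Sp F A x q →
      ∀ (L : Type) [Field L] [NumberField L] [Algebra F L] [IsGalois ℚ L],
      Pool.Agent.H37.CA.IsRCF F L (qi F q) →
      (Pool.Agent.H37.CA.Irr (L ≃ₐ[ℚ] L)).Finite ∧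
      ∃ (U : Set ((L ≃ₐ[ℚ] L) → ℂ)) (Λ : ((L ≃ₐ[ℚ] L) → ℂ) → ℂ → ℂ),
        U ⊆ Pool.Agent.H37.CA.Irr (L ≃ₐ[ℚ] L) ∧
        (1 - ε) * (Pool.Agent.H37.CA.Irr (L ≃ₐ[ℚ] L)).ncard ≤ U.ncard ∧ 0 < U.ncard ∧
        (∀ f ∈ U, f 1 = Module.finrank ℚ F ∧ Pool.Agent.H37.CA.nu f = 0 ∧
          Differentiable ℂ (Λ f) ∧
          (∀ (D : Pool.Agent.H37.CA.Frb L) (V : Type) [AddCommGroup V] [Module ℂ V]
            [FiniteDimensional ℂ V] (ρ : Representation ℂ (L ≃ₐ[ℚ] L) V), f = ρ.character →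
            ∀ s : ℂ, 1 < s.re → HasProd (fun p => (D.rep V ρ).euler p s) (Λ f s)) ∧
          {ρ : ℂ | ρ ∈ St T ∧ Λ f ρ = 0}.Finite ∧
          zc (Λ f) (St T) ≤
            (1 + ε) * (T / Real.pi * ((Module.finrank ℚ F : ℝ) / 2 * Real.log q))) ∧
        (345 / 1000 - ε) *
            (T / Real.pi * ((Module.finrank ℚ F : ℝ) / 2 * Real.log q)) * U.ncard ≤
          ∑ᶠ f ∈ U, ((SZ (Λ f) 0 T).ncard : ℝ) ∧
        (345 / 1000 - ε) * (∑ᶠ f ∈ U, zc (Λ f) (St T)) ≤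
          ∑ᶠ f ∈ U, ((SZ (Λ f) 0 T).ncard : ℝ) ∧
        ∀ t : ℝ, |t| ≤ T →
          (1 / 3 - ε) * (Pool.Agent.H37.CA.Irr (L ≃ₐ[ℚ] L)).ncard ≤
            ({f | f ∈ U ∧ Λ f (1 / 2 + t * I) ≠ 0}.ncard : ℝ) ∧
          (1 - ε) * (Pool.Agent.H37.CA.Irr (L ≃ₐ[ℚ] L)).ncard ≤
            ({f | f ∈ U ∧ analyticOrderAt (Λ f) (1 / 2 + t * I) ≤ (κ ε : ℕ∞)}.ncard : ℝ)

theorem pf_MAINv (hPOOL : T_POOL) (hFG : T_FGv) : T_MAINw := by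
  obtain ⟨κ, hFG⟩ := hFG
  refine ⟨κ, ?_⟩
  intro F _ _ _ _ ε hε
  obtain ⟨A₁, h'⟩ := hFG F ε hε
  obtain ⟨A, hA⟩ : ∃ A : ℕ, A = max A₁ 1 := ⟨_, rfl⟩
  have hA1 : A₁ ≤ A := by rw [hA]; exact le_max_left _ _
  obtain ⟨T₀, hT₀, h2⟩ := h' A hA1
  refine ⟨T₀, hT₀, fun T N hT => ?_⟩
  obtain ⟨x₂, h2⟩ := h2 T hT
  obtain ⟨x, q, hx, hq⟩ := hPOOL F A (max x₂ (max ((N : ℝ) ^ 2) (Real.exp 1)))
  have hx2 : x₂ ≤ x := (le_max_left _ _).trans hx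
  have hx3 : (N : ℝ) ^ 2 ≤ x := ((le_max_left _ _).trans (le_max_right _ _)).trans hx
  have hx4 : Real.exp 1 ≤ x := ((le_max_right _ _).trans (le_max_right _ _)).trans hx
  have h3 : ∀ p ∈ q.primeFactors, N ≤ p := fun p hp => by
    have h4 : (N : ℝ) ≤ (p : ℝ) := (Real.le_sqrt_of_sq_le hx3).trans (hq.low p hp)
    exact_mod_cast h4
  have hlog : 1 ≤ Real.log x := by
    rw [← Real.log_exp 1]
    exact Real.log_le_log (Real.exp_pos _) hx4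
  have hcard : (1 : ℝ) ≤ (q.primeFactors.card : ℝ) :=
    (one_le_pow₀ hlog).trans hq.lo
  have hcard' : 0 < q.primeFactors.card := by
    have : (0 : ℝ) < (q.primeFactors.card : ℝ) := by linarith
    exact_mod_cast this
  obtain ⟨p, hp⟩ := Finset.card_pos.mp hcard'
  have h4 : p ≤ q := Nat.le_of_dvd (Nat.pos_of_ne_zero hq.sq.1.ne_zero)
    (Nat.dvd_of_mem_primeFactors hp)
  refine ⟨q, (h3 p hp).trans h4, hq.sq.1, fun p hp => ⟨h3 p hp, hq.sq.2 p hp⟩,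
    fun L _ _ _ _ hL => h2 x q hx2 hq L hL⟩

end Pool.Agent.H20.SM
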