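import Pool.Agent.H20.SM.TT

/-!
# A cofinal family of Galois extensions: targets, the orders of the zeros

The mollifier is moved to the right by `γ`: its coefficients are `x_S N(S)^(-(1/2 + γ + iu))`.
-/

set_option autoImplicit false

open NumberField NumberField.InfinitePlace Complex Filter Topology MeasureTheory

namespace Pool.Agent.H20.SM

open Pool.Agent.H28.RC Pool.Agent.H25.HK Pool.Agent.H37.CV Pool.Agent.H65.CRZ Pool.Agent.H65.CRG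

/-- the coefficients of the mollifier at the height `u`, moved to the right by `γ` -/
noncomputable def cg (K : Type) [Field K] [NumberField K] (M γ u : ℝ) (S : Finset (PrI K)) : ℂ :=
  (xw K M S : ℂ) * ((nS np S : ℝ) : ℂ) ^ (-(1 / 2 + γ + u * I))

/-- the main term of the quadratic form -/
noncomputable def FFw (a b w : ℂ) (l : ℝ) : ℂ :=
  ∫ v in (0 : ℝ)..l, cexp ((w - a - b) * v) *
    ((1 + a * ((l - v : ℝ) : ℂ)) * (1 + b * ((l - v : ℝ) : ℂ)))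

/-- the main term of the mollified second moment, `l = log M`, `L = 2 log A` -/
noncomputable def Bmw (α β : ℂ) (γ L l : ℝ) : ℂ :=
  1 / ((α + β) * (l : ℂ) ^ 2) * (FFw (α + γ) (β + γ) (α + β) l -
    cexp (-(α + β) * L) * FFw (-β + γ) (-α + γ) (-(α + β)) l)

/-- the first sum at the point `s` -/
noncomputable def A1w {K : Type} [Field K] [NumberField K] (X : ℝ) (s : ℂ)
    (ψ : Ideal (𝓞 K) → ℂ) : ℂ :=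
  ∑' a : NI K, ψ a.1 * ((nm a.1 : ℝ) : ℂ) ^ (-s) * wf (nm a.1 / X)

/-! ### A. The quadratic form -/

/-- (QFw) the form with a relation is small. -/
def T_QFw : Prop :=
  ∀ (K : Type) [Field K] [NumberField K] (C₀ : ℝ), 0 < C₀ → ∃ C : ℝ, 1 ≤ C ∧
    ∀ (M : ℝ) (a b w : ℂ), 2 ≤ M → ‖a‖ ≤ C₀ / Real.log M → ‖b‖ ≤ C₀ / Real.log M →
      ‖w‖ ≤ C₀ / Real.log M →
      ∀ R₁ R₂ : Finset (PrI K), R₁ ⊆ PM K M → R₂ ⊆ PM K M → Disjoint R₁ R₂ → R₁.Nonempty →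
      ‖QF K M a b w R₁ R₂‖ ≤
        C * 2 ^ (R₁.card + R₂.card) * (1 + Real.log (nS np R₁)) / Real.log M ^ 2

/-- (SDw) the form without a relation. -/
def T_SDw : Prop :=
  ∀ (K : Type) [Field K] [NumberField K] (C₀ η : ℝ), 0 < C₀ → 0 < η → ∃ M₀ : ℝ, 2 ≤ M₀ ∧
    ∀ (M : ℝ) (a b w : ℂ), M₀ ≤ M → ‖a‖ ≤ C₀ / Real.log M → ‖b‖ ≤ C₀ / Real.log M →
      ‖w‖ ≤ C₀ / Real.log M →
      ‖((rho K * Real.log M ^ 2 : ℝ) : ℂ) * QF K M a b w ∅ ∅ - FFw a b w (Real.log M)‖ ≤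
        η * Real.log M

/-- (DEw) the terms with a small relation. -/
def T_DEw : Prop :=
  ∀ (K : Type) [Field K] [NumberField K] [IsTotallyComplex K] (δ₀ C₁ c C₀ : ℝ), 0 < δ₀ →
    0 < C₁ → 0 < c → 0 < C₀ → ∃ δ C B M₀ : ℝ, 0 < δ ∧ 0 < C ∧ 0 ≤ B ∧
    ∀ M A : ℝ, M₀ ≤ M → M ^ (1 + δ₀) ≤ A → A ≤ M ^ C₁ → ∀ (α β : ℂ) (γ u : ℝ),
      ‖α‖ ≤ C₀ / Real.log M → ‖β‖ ≤ C₀ / Real.log M → c / Real.log M ≤ ‖α + β‖ →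
      0 ≤ γ → γ ≤ C₀ / Real.log M →
      ∀ J₁ J₂ : Ideal (𝓞 K), J₁ ≠ ⊥ → J₂ ≠ ⊥ → J₁ ≠ ⊤ → J₂ ≠ ⊤ → J₁ ⊔ J₂ = ⊤ →
      nm J₁ * nm J₂ ≤ M ^ δ →
      ‖Dn (K := K) ⊤ (A ^ 2) M (1 / 2 + α + u * I) (1 / 2 + β - u * I) (cg K M γ u)
          (cg K M γ (-u)) J₁ J₂‖ ≤
        C / Real.log M * (1 + |u|) ^ B * wt (J₁, J₂) * (1 + Real.log (nm J₁ * nm J₂))

/-- (DIw) the diagonal term. -/
def T_DIw : Prop :=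
  ∀ (K : Type) [Field K] [NumberField K] [IsTotallyComplex K] (E : ℂ → ℂ) (δ₀ C₁ c C₀ : ℝ),
    IsE K E → 0 < δ₀ → 0 < C₁ → 0 < c → 0 < C₀ → ∃ B : ℝ, 0 ≤ B ∧ ∀ η : ℝ, 0 < η →
    ∃ M₀ : ℝ, ∀ M A : ℝ, M₀ ≤ M → M ^ (1 + δ₀) ≤ A → A ≤ M ^ C₁ → ∀ (α β : ℂ) (γ u : ℝ),
      ‖α‖ ≤ C₀ / Real.log M → ‖β‖ ≤ C₀ / Real.log M → c / Real.log M ≤ ‖α + β‖ →
      0 ≤ γ → γ ≤ C₀ / Real.log M →
      ‖Dn (K := K) ⊤ (A ^ 2) M (1 / 2 + α + u * I) (1 / 2 + β - u * I) (cg K M γ u)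
            (cg K M γ (-u)) ⊤ ⊤ +
          Xn (nrComplexPlaces K) A (1 / 2 + α + u * I) (1 / 2 + β - u * I) *
            Dn (K := K) ⊤ (A ^ 2) M (1 - (1 / 2 + β - u * I)) (1 - (1 / 2 + α + u * I))
              (cg K M γ u) (cg K M γ (-u)) ⊤ ⊤ -
          (1 / (α + β) * E (1 + (α + β)) * QF K M (α + γ) (β + γ) (α + β) ∅ ∅ -
            Xn (nrComplexPlaces K) A (1 / 2 + α + u * I) (1 / 2 + β - u * I) *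
              (1 / (α + β) * E (1 - (α + β)) *
                QF K M (-β + γ) (-α + γ) (-(α + β)) ∅ ∅))‖ ≤ η * (1 + |u|) ^ B

/-- (BMw) the main term. -/
def T_BMw : Prop :=
  ∀ (K : Type) [Field K] [NumberField K] [IsTotallyComplex K] (E : ℂ → ℂ) (C₁ c C₀ : ℝ),
    IsE K E → 0 < C₁ → 0 < c → 0 < C₀ → ∃ B : ℝ, 0 ≤ B ∧ ∀ η : ℝ, 0 < η →
    ∃ M₀ : ℝ, ∀ M A : ℝ, M₀ ≤ M → M ≤ A → A ≤ M ^ C₁ → ∀ (α β : ℂ) (γ u : ℝ),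
      ‖α‖ ≤ C₀ / Real.log M → ‖β‖ ≤ C₀ / Real.log M → c / Real.log M ≤ ‖α + β‖ →
      0 ≤ γ → γ ≤ C₀ / Real.log M →
      ‖1 / (α + β) * E (1 + (α + β)) * QF K M (α + γ) (β + γ) (α + β) ∅ ∅ -
            Xn (nrComplexPlaces K) A (1 / 2 + α + u * I) (1 / 2 + β - u * I) *
              (1 / (α + β) * E (1 - (α + β)) *
                QF K M (-β + γ) (-α + γ) (-(α + β)) ∅ ∅) -
          Bmw α β γ (2 * Real.log A) (Real.log M)‖ ≤ η * (1 + |u|) ^ B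

/-! ### B. The second moment -/

/-- (SRqw) the relations modulo `q`. -/
def T_SRqw : Prop :=
  ∀ (F : Type) [Field F] [NumberField F] [IsTotallyComplex F] [IsGalois ℚ F],
    ∃ A₀ : ℕ, ∀ (A : ℕ) (ε₁ c C₀ : ℝ), A₀ ≤ A → 0 < ε₁ → ε₁ < 1 / 2 → 0 < c → 0 < C₀ →
    ∃ B : ℝ, 0 ≤ B ∧ ∀ η : ℝ, 0 < η → ∃ x₀ : ℝ, ∀ (x : ℝ) (q : ℕ), x₀ ≤ x → Sp F A x q →
      ∀ (α β : ℂ) (γ u : ℝ), ‖α‖ ≤ C₀ / Real.log q → ‖β‖ ≤ C₀ / Real.log q →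
      c / Real.log q ≤ ‖α + β‖ → 0 ≤ γ → γ ≤ C₀ / Real.log q →
      ∀ X : Finset (Ideal (𝓞 F) × Ideal (𝓞 F)),
      (∀ p ∈ X, p ∈ CP (qi F q) (qi F q) ∧ p ≠ (⊤, ⊤)) →
      ∑ p ∈ X, ‖Dz (qi F q) (cB F (qi F q) ^ 2) (Mo F ε₁ q) (1 / 2 + α + u * I)
          (1 / 2 + β - u * I) (cg F (Mo F ε₁ q) γ u) (cg F (Mo F ε₁ q) γ (-u)) p.1 p.2‖ ≤
        η * (1 + |u|) ^ B

/-- (SRdw) the relations modulo a proper divisor of `q`, arbitrary coefficients. -/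
def T_SRdw : Prop :=
  ∀ (F : Type) [Field F] [NumberField F] [IsTotallyComplex F] [IsGalois ℚ F]
    (A : ℕ) (ε₁ C₀ : ℝ), 1 ≤ A → 0 < ε₁ → ε₁ < 1 / 2 → 0 < C₀ →
    ∃ B : ℝ, 0 ≤ B ∧ ∃ x₀ : ℝ, ∀ (x : ℝ) (q : ℕ), x₀ ≤ x → Sp F A x q →
      ∀ (α β : ℂ) (u : ℝ) (c₁ c₂ : Finset (PrI F) → ℂ), ‖α‖ ≤ C₀ / Real.log q →
      ‖β‖ ≤ C₀ / Real.log q → (∀ S, ‖c₁ S‖ ≤ nS np S ^ (-(1 / 2) : ℝ)) →
      (∀ S, ‖c₂ S‖ ≤ nS np S ^ (-(1 / 2) : ℝ)) →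
      ∀ d : Ideal (𝓞 F), qi F q ≤ d → d ≠ qi F q →
      ∀ X : Finset (Ideal (𝓞 F) × Ideal (𝓞 F)), (∀ p ∈ X, p ∈ CP (qi F q) d) →
      (nc (qi F q) d : ℝ) *
        ∑ p ∈ X, ‖Dz (qi F q) (cB F (qi F q) ^ 2) (Mo F ε₁ q) (1 / 2 + α + u * I)
          (1 / 2 + β - u * I) c₁ c₂ p.1 p.2‖ ≤
      (1 + |u|) ^ B * (nc (qi F q) (qi F q) * (x ^ (1 / 8 : ℝ) * pd q d ^ (-(3 / 4) : ℝ) +
        nm (qi F q) ^ (-(ε₁ / 8))))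

/-- (SEw) the second moment of the primitive characters. -/
def T_SEw : Prop :=
  ∀ (F : Type) [Field F] [NumberField F] [IsTotallyComplex F] [IsGalois ℚ F],
    ∃ A₀ : ℕ, ∀ (A : ℕ) (ε₁ c C₀ : ℝ), A₀ ≤ A → 0 < ε₁ → ε₁ < 1 / 2 → 0 < c → 0 < C₀ →
    ∃ B : ℝ, 0 ≤ B ∧ ∀ η : ℝ, 0 < η → ∃ x₀ : ℝ, ∀ (x : ℝ) (q : ℕ), x₀ ≤ x → Sp F A x q →
      ∀ (α β : ℂ) (γ u : ℝ), ‖α‖ ≤ C₀ / Real.log q → ‖β‖ ≤ C₀ / Real.log q →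
      c / Real.log q ≤ ‖α + β‖ → 0 ≤ γ → γ ≤ C₀ / Real.log q →
      ‖(∑ᶠ χ ∈ Pr F (qi F q), A2n (cB F (qi F q) ^ 2) (1 / 2 + α + u * I)
          (1 / 2 + β - u * I) χ.ψ * (pol (Mo F ε₁ q) (cg F (Mo F ε₁ q) γ u) χ.ψ *
            pol (Mo F ε₁ q) (cg F (Mo F ε₁ q) γ (-u)) (fun I => (starRingEnd ℂ) (χ.ψ I)))) -
        nc (qi F q) (qi F q) *
          Dn (K := F) ⊤ (cB F (qi F q) ^ 2) (Mo F ε₁ q) (1 / 2 + α + u * I)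
            (1 / 2 + β - u * I) (cg F (Mo F ε₁ q) γ u) (cg F (Mo F ε₁ q) γ (-u)) ⊤ ⊤‖ ≤
        η * (1 + |u|) ^ B * nc (qi F q) (qi F q)

/-- (Bw) the mollified second moment with shifts. -/
def T_Bw : Prop :=
  ∀ (F : Type) [Field F] [NumberField F] [IsTotallyComplex F] [IsGalois ℚ F],
    ∃ A₀ : ℕ, ∀ (A : ℕ) (ε₁ c C₀ : ℝ), A₀ ≤ A → 0 < ε₁ → ε₁ < 1 / 2 → 0 < c → 0 < C₀ →
    ∃ B : ℝ, 0 ≤ B ∧ ∀ η : ℝ, 0 < η → ∃ x₀ : ℝ, ∀ (x : ℝ) (q : ℕ), x₀ ≤ x → Sp F A x q →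
      ∀ (α β : ℂ) (γ u : ℝ), ‖α‖ ≤ C₀ / Real.log q → ‖β‖ ≤ C₀ / Real.log q →
      c / Real.log q ≤ ‖α + β‖ → 0 ≤ γ → γ ≤ C₀ / Real.log q →
      ‖(∑ᶠ χ ∈ Pr F (qi F q), Zx χ (1 / 2 + α + u * I) *
            (starRingEnd ℂ) (Zx χ (1 / 2 + (starRingEnd ℂ) β + u * I)) *
              ((‖pol (Mo F ε₁ q) (cg F (Mo F ε₁ q) γ u) χ.ψ‖ ^ 2 : ℝ) : ℂ)) -
          nc (qi F q) (qi F q) * Bmw α β γ (Lg F q) (Real.log (Mo F ε₁ q))‖ ≤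
        η * (1 + |u|) ^ B * nc (qi F q) (qi F q)

/-! ### C. The first moment -/

/-- (AF1w) the first approximate functional equation. -/
def T_AF1w : Prop :=
  ∀ (K : Type) [Field K] [NumberField K] [IsTotallyComplex K] (A : ℕ) (T : ℝ), 1 ≤ A → 0 < T →
    ∃ C : ℝ, ∀ χ : RCC K, χ.f ≠ ⊤ → ∀ Z : ℂ → ℂ, IsEnt χ Z → ∀ X γ t : ℝ, 0 < X → 0 ≤ γ →
      γ ≤ 1 / 8 → |t| ≤ T →
      ‖Z (1 / 2 + γ + t * I) - A1w X (1 / 2 + γ + t * I) χ.ψ‖ ≤ C * (cnd K χ.f / X) ^ A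

/-- (FMOw) the first moment opened. -/
def T_FMOw : Prop :=
  ∀ (K : Type) [Field K] [NumberField K] [IsTotallyComplex K] (m d : Ideal (𝓞 K))
    (X M γ t : ℝ), m ≠ ⊥ → m ≤ d → 0 < X → 1 ≤ M → 0 ≤ γ →
    Summable (fun n : {n : Ideal (𝓞 K) // (n, ⊤) ∈ CP m d} =>
      ‖lam X M n.1‖ * nm n.1 ^ (-(1 / 2) : ℝ)) ∧
    ∑ᶠ ψ ∈ Ch m d, A1w X (1 / 2 + γ + t * I) ψ * pol M (cg K M γ t) ψ =
      nc m d * ∑' n : {n : Ideal (𝓞 K) // (n, ⊤) ∈ CP m d},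
        lam X M n.1 * ((nm n.1 : ℝ) : ℂ) ^ (-(1 / 2 + γ + t * I))

/-- (F1w) the sums of the first moment. -/
def T_F1w : Prop :=
  ∀ (F : Type) [Field F] [NumberField F] [IsTotallyComplex F] [IsGalois ℚ F]
    (A : ℕ) (ε₁ η : ℝ), 1 ≤ A → 0 < ε₁ → ε₁ < 1 / 2 → 0 < η →
    ∃ x₀ : ℝ, ∀ (x : ℝ) (q : ℕ), x₀ ≤ x → Sp F A x q → ∀ γ t : ℝ, 0 ≤ γ →
      ‖(∑' n : {n : Ideal (𝓞 F) // (n, ⊤) ∈ CP (qi F q) (qi F q)},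
        lam (Xr F q) (Mo F ε₁ q) n.1 * ((nm n.1 : ℝ) : ℂ) ^ (-(1 / 2 + γ + t * I))) - 1‖ ≤ η ∧
      ∀ d : Ideal (𝓞 F), qi F q ≤ d → d ≠ qi F q → (nc (qi F q) d : ℝ) *
        ‖∑' n : {n : Ideal (𝓞 F) // (n, ⊤) ∈ CP (qi F q) d},
          lam (Xr F q) (Mo F ε₁ q) n.1 * ((nm n.1 : ℝ) : ℂ) ^ (-(1 / 2 + γ + t * I))‖ ≤
      nc (qi F q) (qi F q) * (x ^ (1 / 8 : ℝ) * pd q d ^ (-(3 / 4) : ℝ) +
        nm (qi F q) ^ (-(1 / 32) : ℝ))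

/-- (FMw) the first moment. -/
def T_FMw : Prop :=
  ∀ (F : Type) [Field F] [NumberField F] [IsTotallyComplex F] [IsGalois ℚ F]
    (A : ℕ) (ε₁ η T : ℝ), 1 ≤ A → 0 < ε₁ → ε₁ < 1 / 2 → 0 < η → 0 < T →
    ∃ x₀ : ℝ, ∀ (x : ℝ) (q : ℕ), x₀ ≤ x → Sp F A x q → ∀ γ t : ℝ, 0 ≤ γ → γ ≤ 1 / 8 →
      |t| ≤ T →
      ‖(∑ᶠ χ ∈ Pr F (qi F q), Zx χ (1 / 2 + γ + t * I) *
          pol (Mo F ε₁ q) (cg F (Mo F ε₁ q) γ t) χ.ψ) - nc (qi F q) (qi F q)‖ ≤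
        η * nc (qi F q) (qi F q)

/-! ### D. The orders -/

/-- the distance `R / log N(q)` -/
noncomputable def gr (F : Type) [Field F] [NumberField F] (R : ℝ) (q : ℕ) : ℝ := R / Lg F q

/-- the value of the mollifier -/
noncomputable def Pw {F : Type} [Field F] [NumberField F] (R t : ℝ) (q : ℕ) (χ : RCC F) : ℂ :=
  pol (Mo F (1 / 4) q) (cg F (Mo F (1 / 4) q) (gr F R q) t) χ.ψ

/-- (VRw) the variance near the critical line. -/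
def T_VRw : Prop :=
  ∀ (F : Type) [Field F] [NumberField F] [IsTotallyComplex F] [IsGalois ℚ F],
    ∃ A₀ : ℕ, ∀ (A : ℕ) (R T η : ℝ), A₀ ≤ A → 1 ≤ R → 0 < T → 0 < η →
    ∃ x₀ : ℝ, ∀ (x : ℝ) (q : ℕ), x₀ ≤ x → Sp F A x q → ∀ t : ℝ, |t| ≤ T →
      ∑ᶠ χ ∈ Pr F (qi F q), ‖Zx χ (1 / 2 + gr F R q + t * I) * Pw R t q χ - 1‖ ^ 2 ≤
        (4 / R ^ 2 + η) * nc (qi F q) (qi F q)

/-- (UBw) the mean square on a small circle; the bound does not depend on the field. -/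
def T_UBw : Prop :=
  ∃ C : ℝ → ℝ, ∀ (F : Type) [Field F] [NumberField F] [IsTotallyComplex F] [IsGalois ℚ F],
    ∃ A₀ : ℕ, ∀ (A : ℕ) (R T : ℝ), A₀ ≤ A → 1 ≤ R → 0 < T →
    ∃ x₀ : ℝ, ∀ (x : ℝ) (q : ℕ), x₀ ≤ x → Sp F A x q → ∀ t : ℝ, |t| ≤ T → ∀ z : ℂ,
      ‖z‖ = 2 * gr F R q →
      ∑ᶠ χ ∈ Pr F (qi F q), ‖Zx χ (1 / 2 + gr F R q + t * I + z) * Pw R t q χ‖ ^ 2 ≤
        C R * nc (qi F q) (qi F q)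

/-- (BLw) the order of a zero from the mean square on a circle. -/
def T_BLw : Prop :=
  ∀ (f : ℂ → ℂ) (s₀ w : ℂ) (r : ℝ) (k : ℕ), Differentiable ℂ f → 0 < r → ‖w - s₀‖ = r →
    ¬ analyticOrderAt f w ≤ (k : ℕ∞) →
    4 ^ (k + 1) * ‖f s₀‖ ^ 2 ≤
      1 / (2 * Real.pi) * ∫ φ in (0 : ℝ)..(2 * Real.pi), ‖f (s₀ + 2 * r * cexp (φ * I))‖ ^ 2

/-- (ORw) the orders of the zeros of almost all `L`-functions are bounded; the bound does not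
depend on the field. -/
def T_ORw : Prop :=
  ∀ δ : ℝ, 0 < δ → ∃ k : ℕ, ∀ (F : Type) [Field F] [NumberField F] [IsTotallyComplex F]
    [IsGalois ℚ F], ∃ A₀ : ℕ, ∀ (A : ℕ) (T : ℝ), A₀ ≤ A → 0 < T →
    ∃ x₀ : ℝ, ∀ (x : ℝ) (q : ℕ), x₀ ≤ x → Sp F A x q → ∀ t : ℝ, |t| ≤ T →
      ({χ | χ ∈ Pr F (qi F q) ∧ ¬ analyticOrderAt (Zx χ) (1 / 2 + t * I) ≤ (k : ℕ∞)}.ncard :
        ℝ) ≤ δ * (Pr F (qi F q)).ncard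

/-- (FGw) values, orders and zeros of the Artin `L`-functions. -/
def T_FGw : Prop :=
  ∃ κ : ℝ → ℕ, ∀ (F : Type) [Field F] [NumberField F] [IsTotallyComplex F] [IsGalois ℚ F],
    ∃ A₀ : ℕ, ∀ (A : ℕ) (ε : ℝ), A₀ ≤ A → 0 < ε → ∃ T₀ : ℝ, 0 < T₀ ∧ ∀ T : ℝ, T₀ ≤ T →
    ∃ x₀ : ℝ, ∀ (x : ℝ) (q : ℕ), x₀ ≤ x → Sp F A x q →
      ∀ (L : Type) [Field L] [NumberField L] [Algebra F L] [IsGalois ℚ L],
      Pool.Agent.H37.CA.IsRCF F L (qi F q) →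
      (Pool.Agent.H37.CA.Irr (L ≃ₐ[ℚ] L)).Finite ∧
      ∃ (U : Set ((L ≃ₐ[ℚ] L) → ℂ)) (Λ : ((L ≃ₐ[ℚ] L) → ℂ) → ℂ → ℂ),
        U ⊆ Pool.Agent.H37.CA.Irr (L ≃ₐ[ℚ] L) ∧
        (1 - ε) * (Pool.Agent.H37.CA.Irr (L ≃ₐ[ℚ] L)).ncard ≤ U.ncard ∧ 0 < U.ncard ∧
        (∀ f ∈ U, f 1 = Module.finrank ℚ F ∧ Pool.Agent.H37.CA.nu f = 0 ∧
          Differentiable ℂ (Λ f) ∧
          (∀ (D : Pool.Agent.H37.CA.Frb L) (V : Type) [AddCommGroup V] [Module ℂ V]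
            [FiniteDimensional ℂ V] (ρ : Representation ℂ (L ≃ₐ[ℚ] L) V), f = ρ.character →
            ∀ s : ℂ, 1 < s.re → HasProd (fun p => (D.rep V ρ).euler p s) (Λ f s)) ∧
          {ρ : ℂ | ρ ∈ St T ∧ Λ f ρ = 0}.Finite ∧
          zc (Λ f) (St T) ≤
            (1 + ε) * (T / Real.pi * ((Module.finrank ℚ F : ℝ) / 2 * Real.log q))) ∧
        (345 / 1000 - ε) *
            (T / Real.pi * ((Module.finrank ℚ F : ℝ) / 2 * Real.log q)) * U.ncard ≤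
          ∑ᶠ f ∈ U, ((SZ (Λ f) 0 T).ncard : ℝ) ∧
        (345 / 1000 - ε) * (∑ᶠ f ∈ U, zc (Λ f) (St T)) ≤
          ∑ᶠ f ∈ U, ((SZ (Λ f) 0 T).ncard : ℝ) ∧
        ∀ t : ℝ, |t| ≤ T →
          (1 / 3 - ε) * (Pool.Agent.H37.CA.Irr (L ≃ₐ[ℚ] L)).ncard ≤
            ({f | f ∈ U ∧ Λ f (1 / 2 + t * I) ≠ 0}.ncard : ℝ) ∧
          (1 - ε) * (Pool.Agent.H37.CA.Irr (L ≃ₐ[ℚ] L)).ncard ≤
            ({f | f ∈ U ∧ analyticOrderAt (Λ f) (1 / 2 + t * I) ≤ (κ ε : ℕ∞)}.ncard : ℝ)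

/-- (MAINw) values, orders and zeros for a cofinal family. -/
def T_MAINw : Prop :=
  ∃ κ : ℝ → ℕ, ∀ (F : Type) [Field F] [NumberField F] [IsTotallyComplex F] [IsGalois ℚ F]
    (ε : ℝ), 0 < ε → ∃ T₀ : ℝ, 0 < T₀ ∧ ∀ (T : ℝ) (N : ℕ), T₀ ≤ T →
    ∃ q : ℕ, N ≤ q ∧ Squarefree q ∧ (∀ p ∈ q.primeFactors, N ≤ p ∧ Spl F p) ∧
      ∀ (L : Type) [Field L] [NumberField L] [Algebra F L] [IsGalois ℚ L],
      Pool.Agent.H37.CA.IsRCF F L (qi F q) →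
      (Pool.Agent.H37.CA.Irr (L ≃ₐ[ℚ] L)).Finite ∧
      ∃ (U : Set ((L ≃ₐ[ℚ] L) → ℂ)) (Λ : ((L ≃ₐ[ℚ] L) → ℂ) → ℂ → ℂ),
        U ⊆ Pool.Agent.H37.CA.Irr (L ≃ₐ[ℚ] L) ∧
        (1 - ε) * (Pool.Agent.H37.CA.Irr (L ≃ₐ[ℚ] L)).ncard ≤ U.ncard ∧ 0 < U.ncard ∧
        (∀ f ∈ U, f 1 = Module.finrank ℚ F ∧ Pool.Agent.H37.CA.nu f = 0 ∧
          Differentiable ℂ (Λ f) ∧
          (∀ (D : Pool.Agent.H37.CA.Frb L) (V : Type) [AddCommGroup V] [Module ℂ V]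
            [FiniteDimensional ℂ V] (ρ : Representation ℂ (L ≃ₐ[ℚ] L) V), f = ρ.character →
            ∀ s : ℂ, 1 < s.re → HasProd (fun p => (D.rep V ρ).euler p s) (Λ f s)) ∧
          {ρ : ℂ | ρ ∈ St T ∧ Λ f ρ = 0}.Finite ∧
          zc (Λ f) (St T) ≤
            (1 + ε) * (T / Real.pi * ((Module.finrank ℚ F : ℝ) / 2 * Real.log q))) ∧
        (345 / 1000 - ε) *
            (T / Real.pi * ((Module.finrank ℚ F : ℝ) / 2 * Real.log q)) * U.ncard ≤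
          ∑ᶠ f ∈ U, ((SZ (Λ f) 0 T).ncard : ℝ) ∧
        (345 / 1000 - ε) * (∑ᶠ f ∈ U, zc (Λ f) (St T)) ≤
          ∑ᶠ f ∈ U, ((SZ (Λ f) 0 T).ncard : ℝ) ∧
        ∀ t : ℝ, |t| ≤ T →
          (1 / 3 - ε) * (Pool.Agent.H37.CA.Irr (L ≃ₐ[ℚ] L)).ncard ≤
            ({f | f ∈ U ∧ Λ f (1 / 2 + t * I) ≠ 0}.ncard : ℝ) ∧
          (1 - ε) * (Pool.Agent.H37.CA.Irr (L ≃ₐ[ℚ] L)).ncard ≤
            ({f | f ∈ U ∧ analyticOrderAt (Λ f) (1 / 2 + t * I) ≤ (κ ε : ℕ∞)}.ncard : ℝ)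

theorem pf_MAINw (hPOOL : T_POOL) (hFG : T_FGw) : T_MAINw := by
  obtain ⟨κ, hFG⟩ := hFG
  refine ⟨κ, ?_⟩
  intro F _ _ _ _ ε hε
  obtain ⟨A₁, h'⟩ := hFG F
  obtain ⟨A, hA⟩ : ∃ A : ℕ, A = max A₁ 1 := ⟨_, rfl⟩
  have hA1 : A₁ ≤ A := by rw [hA]; exact le_max_left _ _
  obtain ⟨T₀, hT₀, h2⟩ := h' A ε hA1 hε
  refine ⟨T₀, hT₀, fun T N hT => ?_⟩
  obtain ⟨x₂, h2⟩ := h2 T hT
  obtain ⟨x, q, hx, hq⟩ := hPOOL F A (max x₂ (max ((N : ℝ) ^ 2) (Real.exp 1)))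
  have hx2 : x₂ ≤ x := (le_max_left _ _).trans hx
  have hx3 : (N : ℝ) ^ 2 ≤ x := ((le_max_left _ _).trans (le_max_right _ _)).trans hx
  have hx4 : Real.exp 1 ≤ x := ((le_max_right _ _).trans (le_max_right _ _)).trans hx
  have h3 : ∀ p ∈ q.primeFactors, N ≤ p := fun p hp => by
    have h4 : (N : ℝ) ≤ (p : ℝ) := (Real.le_sqrt_of_sq_le hx3).trans (hq.low p hp)
    exact_mod_cast h4
  have hlog : 1 ≤ Real.log x := by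
    rw [← Real.log_exp 1]
    exact Real.log_le_log (Real.exp_pos _) hx4
  have hcard : (1 : ℝ) ≤ (q.primeFactors.card : ℝ) :=
    (one_le_pow₀ hlog).trans hq.lo
  have hcard' : 0 < q.primeFactors.card := by
    have : (0 : ℝ) < (q.primeFactors.card : ℝ) := by linarith
    exact_mod_cast this
  obtain ⟨p, hp⟩ := Finset.card_pos.mp hcard'
  have h4 : p ≤ q := Nat.le_of_dvd (Nat.pos_of_ne_zero hq.sq.1.ne_zero)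
    (Nat.dvd_of_mem_primeFactors hp)
  refine ⟨q, (h3 p hp).trans h4, hq.sq.1, fun p hp => ⟨h3 p hp, hq.sq.2 p hp⟩,
    fun L _ _ _ _ hL => h2 x q hx2 hq L hL⟩

end Pool.Agent.H20.SM
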