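import Pool.Agent.H1.SMQ.PHI
import Pool.Agent.H1.SMQ.SNz
import Pool.Agent.H11.SM.BMw
import Pool.Agent.H11.SM.C4F
import Pool.Agent.H11.SM.DIw
import Pool.Agent.H11.SM.DIz
import Pool.Agent.H13.SMZ.DTz
import Pool.Agent.H13.SMZ.ORw
import Pool.Agent.H14.SM.CH1
import Pool.Agent.H16.SM.AF1t
import Pool.Agent.H16.SM.FMOt
import Pool.Agent.H18.SM.F1t
import Pool.Agent.H19.SM.Bz
import Pool.Agent.H19.SM.FMOw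
import Pool.Agent.H19.SM.GBF
import Pool.Agent.H19.SM.U2
import Pool.Agent.H20.SM.NGNQ
import Pool.Agent.H20.SM.TV
import Pool.Agent.H25.SM.Bw
import Pool.Agent.H25.SM.FBz
import Pool.Agent.H25.SM.FMz
import Pool.Agent.H25.SM.PNC
import Pool.Agent.H25.SM.RPF
import Pool.Agent.H25.SM.UBw
import Pool.Agent.H31.SM.SRqw
import Pool.Agent.H32.SM.SWF
import Pool.Agent.H34.SM.CNTq
import Pool.Agent.H35.SM.DEw
import Pool.Agent.H35.SM.LEz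
import Pool.Agent.H36.SM.PAR
import Pool.Agent.H37.CA.All
import Pool.Agent.H37.CV.All
import Pool.Agent.H37.SM.OPz
import Pool.Agent.H37.SM.RSz
import Pool.Agent.H38.SM.NCR
import Pool.Agent.H38.SM.SEz
import Pool.Agent.H39.SM.FXPq
import Pool.Agent.H39.SM.SNO
import Pool.Agent.H40.SM.BMz
import Pool.Agent.H40.SM.NGYq
import Pool.Agent.H42.SM.CQz
import Pool.Agent.H42.SM.FMt
import Pool.Agent.H42.SM.SMt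
import Pool.Agent.H42.SM.VBz
import Pool.Agent.H46.SM.DEz
import Pool.Agent.H46.SM.IEq
import Pool.Agent.H46.SM.SEw
import Pool.Agent.H46.SM.SRdw
import Pool.Agent.H47.SM.FINt
import Pool.Agent.H49.SM.AF1w
import Pool.Agent.H49.SM.FHz
import Pool.Agent.H49.SM.TFz
import Pool.Agent.H5.SM.TLF
import Pool.Agent.H51.SM.UBF
import Pool.Agent.H54.SM.SRdz
import Pool.Agent.H61.SM.CFYq
import Pool.Agent.H61.SM.VRw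
import Pool.Agent.H63.SM.F1w
import Pool.Agent.H64.SM.CHT
import Pool.Agent.H64.SM.FMw
import Pool.Agent.H64.SM.NCG
import Pool.Agent.H65.CRG.All
import Pool.Agent.H67.SM.NRC
import Pool.Agent.H67.SM.QFw
import Pool.Agent.H67.SM.SDw
import Pool.Agent.H68.SM.SPL
import Pool.Agent.H69.SM.FZz
import Pool.Agent.H72.SM.PNF
import Pool.Agent.H76.SM.DVF
import Pool.Agent.H78.SM.CRT
import Pool.Agent.H79.SM.MSz
import Pool.Agent.H79.SM.SND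
import Pool.Agent.H8.SM.CFF
import Pool.Agent.H86.SMG.INz
import Pool.Agent.H86.SMG.LBF
import Pool.Agent.H86.SMG.U1
import Pool.Agent.H88.SM.SRqz
import Pool.Agent.H89.SM.FXYq
import Pool.Agent.H89.SM.LFz
import Pool.Agent.H91.SM.BLw
import Pool.Agent.H91.SM.FGw
import Pool.Agent.H95.SM.APF
import Pool.Agent.H95.SM.LOF
import Pool.Agent.H95.SM.POOL
import Pool.Agent.H97.SM.EAF
import Pool.Agent.H97.SM.PRM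
import Pool.Agent.H99.SM.CFXq

/-!
# A cofinal family of Galois extensions: the complete proof
-/

set_option autoImplicit false

open NumberField

namespace Pool.Agent.H20.SM

theorem a_CFF : Pool.Agent.H20.SM.T_CFF :=
  Pool.Agent.H8.SM.pf_CFF
theorem a_TLF : Pool.Agent.H20.SM.T_TLF :=
  Pool.Agent.H5.SM.pf_TLF a_CFF
theorem a_NRC : Pool.Agent.H20.SM.T_NRC :=
  Pool.Agent.H67.SM.pf_NRC
theorem a_LBF : Pool.Agent.H20.SM.T_LBF :=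
  Pool.Agent.H86.SMG.pf_LBF a_CFF a_NRC
theorem a_DVF : Pool.Agent.H20.SM.T_DVF :=
  Pool.Agent.H76.SM.pf_DVF a_CFF a_LBF
theorem a_UBF : Pool.Agent.H20.SM.T_UBF :=
  Pool.Agent.H51.SM.pf_UBF Pool.Agent.H37.CV.a_ZK a_CFF a_LBF a_TLF
theorem a_C4F : Pool.Agent.H20.SM.T_C4F :=
  Pool.Agent.H11.SM.pf_C4F a_CFF a_TLF a_UBF a_DVF
theorem a_RPF : Pool.Agent.H20.SM.T_RPF :=
  Pool.Agent.H25.SM.pf_RPF a_CFF
theorem a_EAF : Pool.Agent.H20.SM.T_EAF :=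
  Pool.Agent.H97.SM.pf_EAF a_TLF a_UBF a_RPF
theorem a_LOF : Pool.Agent.H20.SM.T_LOF :=
  Pool.Agent.H95.SM.pf_LOF a_TLF a_DVF a_C4F a_EAF
theorem a_GBF : Pool.Agent.H20.SM.T_GBF :=
  Pool.Agent.H19.SM.pf_GBF a_CFF a_LBF
theorem a_SWF : Pool.Agent.H20.SM.T_SWF :=
  Pool.Agent.H32.SM.pf_SWF a_CFF a_LOF a_GBF
theorem a_PNF : Pool.Agent.H20.SM.T_PNF :=
  Pool.Agent.H72.SM.pf_PNF a_CFF
theorem a_APF : Pool.Agent.H20.SM.T_APF :=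
  Pool.Agent.H95.SM.pf_APF a_CFF a_SWF a_PNF
theorem a_PRM : Pool.Agent.H20.SM.T_PRM :=
  Pool.Agent.H97.SM.pf_PRM a_APF a_CFF
theorem a_POOL : Pool.Agent.H20.SM.T_POOL :=
  Pool.Agent.H95.SM.pf_POOL a_PRM
theorem a_SPL : Pool.Agent.H20.SM.T_SPL :=
  Pool.Agent.H68.SM.pf_SPL
theorem a_CRT : Pool.Agent.H20.SM.T_CRT :=
  Pool.Agent.H78.SM.pf_CRT a_SPL
theorem a_U1 : Pool.Agent.H20.SM.T_U1 :=
  Pool.Agent.H86.SMG.pf_U1 a_CRT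
theorem a_U2 : Pool.Agent.H20.SM.T_U2 :=
  Pool.Agent.H19.SM.pf_U2 a_SPL a_CRT
theorem a_PHI : Pool.Agent.H20.SM.T_PHI :=
  Pool.Agent.H1.SMQ.pf_PHI a_CRT
theorem a_NCR : Pool.Agent.H20.SM.T_NCR :=
  Pool.Agent.H38.SM.pf_NCR a_U1 a_U2 a_PHI a_CRT
theorem a_PAR : Pool.Agent.H20.SM.T_PAR :=
  Pool.Agent.H36.SM.pf_PAR a_CRT
theorem a_NGNq : Pool.Agent.H20.SM.T_NGNq :=
  Pool.Agent.H20.SM.pf_NGNq
theorem a_NGYq : Pool.Agent.H20.SM.T_NGYq :=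
  Pool.Agent.H40.SM.pf_NGYq
theorem a_FXPq : Pool.Agent.H20.SM.T_FXPq :=
  Pool.Agent.H39.SM.pf_FXPq a_SPL a_CRT
theorem a_CFXq : Pool.Agent.H20.SM.T_CFXq :=
  Pool.Agent.H99.SM.pf_CFXq a_FXPq
theorem a_FXYq : Pool.Agent.H20.SM.T_FXYq :=
  Pool.Agent.H89.SM.pf_FXYq a_SPL a_CRT
theorem a_CFYq : Pool.Agent.H20.SM.T_CFYq :=
  Pool.Agent.H61.SM.pf_CFYq a_FXYq
theorem a_CNTq : Pool.Agent.H20.SM.T_CNTq :=
  Pool.Agent.H34.SM.pf_CNTq a_NCR a_PAR a_NGNq a_NGYq a_CFXq a_CFYq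
theorem a_IEq : Pool.Agent.H20.SM.T_IEq :=
  Pool.Agent.H46.SM.pf_IEq a_CRT
theorem a_SND : Pool.Agent.H20.SM.T_SND :=
  Pool.Agent.H79.SM.pf_SND
theorem a_PNC : Pool.Agent.H20.SM.T_PNC :=
  Pool.Agent.H25.SM.pf_PNC a_IEq a_NCR a_SND
theorem a_TFz : Pool.Agent.H20.SM.T_TFz :=
  Pool.Agent.H49.SM.pf_TFz a_CNTq a_PNC a_NCR a_IEq
theorem a_CQz : Pool.Agent.H20.SM.T_CQz :=
  Pool.Agent.H42.SM.pf_CQz
theorem a_LFz : Pool.Agent.H20.SM.T_LFz :=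
  Pool.Agent.H89.SM.pf_LFz Pool.Agent.H37.CV.a_EN Pool.Agent.H65.CRG.d_H1
    Pool.Agent.H65.CRG.Base.c_H2 a_CQz
theorem a_FBz : Pool.Agent.H20.SM.T_FBz :=
  Pool.Agent.H25.SM.pf_FBz a_LFz a_CQz
theorem a_OPz : Pool.Agent.H20.SM.T_OPz :=
  Pool.Agent.H37.SM.pf_OPz
theorem a_NCG : Pool.Agent.H20.SM.T_NCG :=
  Pool.Agent.H64.SM.pf_NCG a_CRT
theorem a_SNO : Pool.Agent.H20.SM.T_SNO :=
  Pool.Agent.H39.SM.pf_SNO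
theorem a_CHT : Pool.Agent.H20.SM.T_CHT :=
  Pool.Agent.H64.SM.pf_CHT
theorem a_VBz : Pool.Agent.H20.SM.T_VBz :=
  Pool.Agent.H42.SM.pf_VBz
theorem a_SNz : Pool.Agent.H20.SM.T_SNz :=
  Pool.Agent.H1.SMQ.pf_SNz a_VBz
theorem a_DTz : Pool.Agent.H20.SM.T_DTz :=
  Pool.Agent.H13.SMZ.pf_DTz a_SNz
theorem a_RSz : Pool.Agent.H20.SM.T_RSz :=
  Pool.Agent.H37.SM.pf_RSz a_SNz a_DTz
theorem a_DEz : Pool.Agent.H20.SM.T_DEz :=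
  Pool.Agent.H46.SM.pf_DEz
theorem a_SRqz : Pool.Agent.H20.SM.T_SRqz :=
  Pool.Agent.H88.SM.pf_SRqz a_NCR a_PAR a_NCG a_SNO a_CHT a_DTz a_RSz a_DEz a_CQz
theorem a_CH1 : Pool.Agent.H20.SM.T_CH1 :=
  Pool.Agent.H14.SM.pf_CH1
theorem a_SRdz : Pool.Agent.H20.SM.T_SRdz :=
  Pool.Agent.H54.SM.pf_SRdz a_NCR a_PAR a_NCG a_SNO a_CHT a_CH1 a_DTz a_CQz
theorem a_SEz : Pool.Agent.H20.SM.T_SEz :=
  Pool.Agent.H38.SM.pf_SEz a_IEq a_SND a_NCR a_PAR a_OPz a_SRqz a_SRdz a_RSz a_CQz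
theorem a_DIz : Pool.Agent.H20.SM.T_DIz :=
  Pool.Agent.H11.SM.pf_DIz
theorem a_BMz : Pool.Agent.H20.SM.T_BMz :=
  Pool.Agent.H40.SM.pf_BMz
theorem a_Bz : Pool.Agent.H20.SM.T_Bz :=
  Pool.Agent.H19.SM.pf_Bz a_SEz a_DIz a_BMz a_CQz a_IEq
theorem a_MSz : Pool.Agent.H20.SM.T_MSz :=
  Pool.Agent.H79.SM.pf_MSz a_Bz a_CQz a_LFz
theorem a_INz : Pool.Agent.H20.SM.T_INz :=
  Pool.Agent.H86.SMG.pf_INz a_MSz a_LFz a_FBz a_CQz a_IEq a_PNC a_NCR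
theorem a_LEz : Pool.Agent.H20.SM.T_LEz :=
  Pool.Agent.H35.SM.pf_LEz a_Bz a_MSz a_LFz a_CQz a_IEq a_PNC a_NCR
theorem a_FMz : Pool.Agent.H20.SM.T_FMz :=
  Pool.Agent.H25.SM.pf_FMz a_LFz a_FBz a_INz a_LEz a_CQz a_IEq a_PNC a_NCR
theorem a_FZz : Pool.Agent.H20.SM.T_FZz :=
  Pool.Agent.H69.SM.pf_FZz a_LFz a_CQz a_IEq a_PNC a_NCR
theorem a_FHz : Pool.Agent.H20.SM.T_FHz :=
  Pool.Agent.H49.SM.pf_FHz a_FMz a_FZz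
theorem a_SMt : Pool.Agent.H20.SM.T_SMt :=
  Pool.Agent.H42.SM.pf_SMt a_Bz a_CQz a_IEq a_LFz
theorem a_AF1t : Pool.Agent.H20.SM.T_AF1t :=
  Pool.Agent.H16.SM.pf_AF1t
theorem a_FMOt : Pool.Agent.H20.SM.T_FMOt :=
  Pool.Agent.H16.SM.pf_FMOt
theorem a_F1t : Pool.Agent.H20.SM.T_F1t :=
  Pool.Agent.H18.SM.pf_F1t a_NCR a_PAR a_NCG a_CHT a_CH1
theorem a_FMt : Pool.Agent.H20.SM.T_FMt :=
  Pool.Agent.H42.SM.pf_FMt a_IEq a_NCR a_PAR a_SND a_AF1t a_FMOt a_F1t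
theorem a_FINt : Pool.Agent.H20.SM.T_FINt :=
  Pool.Agent.H47.SM.pf_FINt a_IEq a_PNC a_NCR a_SMt a_FMt
theorem a_QFw : Pool.Agent.H20.SM.T_QFw :=
  Pool.Agent.H67.SM.pf_QFw
theorem a_DEw : Pool.Agent.H20.SM.T_DEw :=
  Pool.Agent.H35.SM.pf_DEw a_QFw
theorem a_SRqw : Pool.Agent.H20.SM.T_SRqw :=
  Pool.Agent.H31.SM.pf_SRqw a_NCR a_PAR a_NCG a_SNO a_CHT a_DTz a_RSz a_DEw a_CQz
theorem a_SRdw : Pool.Agent.H20.SM.T_SRdw :=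
  Pool.Agent.H46.SM.pf_SRdw a_NCR a_PAR a_NCG a_SNO a_CHT a_CH1 a_DTz a_CQz
theorem a_SEw : Pool.Agent.H20.SM.T_SEw :=
  Pool.Agent.H46.SM.pf_SEw a_IEq a_SND a_NCR a_PAR a_OPz a_SRqw a_SRdw a_RSz a_CQz
theorem a_DIw : Pool.Agent.H20.SM.T_DIw :=
  Pool.Agent.H11.SM.pf_DIw
theorem a_SDw : Pool.Agent.H20.SM.T_SDw :=
  Pool.Agent.H67.SM.pf_SDw
theorem a_BMw : Pool.Agent.H20.SM.T_BMw :=
  Pool.Agent.H11.SM.pf_BMw a_SDw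
theorem a_Bw : Pool.Agent.H20.SM.T_Bw :=
  Pool.Agent.H25.SM.pf_Bw a_SEw a_DIw a_BMw a_CQz a_IEq
theorem a_AF1w : Pool.Agent.H20.SM.T_AF1w :=
  Pool.Agent.H49.SM.pf_AF1w
theorem a_FMOw : Pool.Agent.H20.SM.T_FMOw :=
  Pool.Agent.H19.SM.pf_FMOw
theorem a_F1w : Pool.Agent.H20.SM.T_F1w :=
  Pool.Agent.H63.SM.pf_F1w a_NCR a_PAR a_NCG a_CHT a_CH1
theorem a_FMw : Pool.Agent.H20.SM.T_FMw :=
  Pool.Agent.H64.SM.pf_FMw a_IEq a_NCR a_PAR a_SND a_AF1w a_FMOw a_F1w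
theorem a_VRw : Pool.Agent.H20.SM.T_VRw :=
  Pool.Agent.H61.SM.VRw.pf_VRw a_Bw a_FMw a_CQz a_PNC a_IEq
theorem a_UBw : Pool.Agent.H20.SM.T_UBw :=
  Pool.Agent.H25.SM.pf_UBw a_Bw a_CQz a_IEq
theorem a_BLw : Pool.Agent.H20.SM.T_BLw :=
  Pool.Agent.H91.SM.pf_BLw
theorem a_ORw : Pool.Agent.H20.SM.T_ORw :=
  Pool.Agent.H13.SMZ.pf_ORw a_VRw a_UBw a_BLw a_PNC a_NCR a_IEq
theorem a_FGv : Pool.Agent.H20.SM.T_FGv :=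
  Pool.Agent.H91.SM.pf_FGv a_TFz a_FHz a_FZz a_FINt a_ORw
theorem a_MAINw : Pool.Agent.H20.SM.T_MAINw :=
  Pool.Agent.H20.SM.pf_MAINv a_POOL a_FGv

/-- values, orders and zeros of the Artin `L`-functions of a cofinal family -/
theorem main_proved : T_MAINw := a_MAINw

end Pool.Agent.H20.SM
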