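import Pool.Agent.H37.CA.Targets2

/-!
# A cofinal family of Galois extensions: special moduli (definitions)

`F` is a totally complex number field, Galois over `ℚ`. The moduli `q` are products of prime numbers
`p` which split completely in `F`, with `p - 1 ∣ k` for a small number `k`.
-/

set_option autoImplicit false

open NumberField NumberField.InfinitePlace Complex Filter Topology

namespace Pool.Agent.H20.SM

open Pool.Agent.H28.RC Pool.Agent.H25.HK Pool.Agent.H37.CV

/-- the prime number `p` splits completely in `F` -/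
def Spl (F : Type) [Field F] [NumberField F] (p : ℕ) : Prop :=
  p.Prime ∧ {P : Ideal (𝓞 F) | P.IsPrime ∧ (p : 𝓞 F) ∈ P}.ncard = Module.finrank ℚ F

/-- `q` is a squarefree product of primes which split completely in `F` -/
def Sq (F : Type) [Field F] [NumberField F] (q : ℕ) : Prop :=
  Squarefree q ∧ ∀ p ∈ q.primeFactors, Spl F p

/-- the special moduli at the scale `x` -/
structure Sp (F : Type) [Field F] [NumberField F] (A : ℕ) (x : ℝ) (q : ℕ) : Prop where
  sq : Sq F q
  low : ∀ p ∈ q.primeFactors, Real.sqrt x ≤ p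
  upp : ∀ p ∈ q.primeFactors, (p : ℝ) ≤ x
  ex : ∃ k : ℕ, 1 ≤ k ∧ (k : ℝ) ≤ x ^ 3 ∧ ∀ p ∈ q.primeFactors, p - 1 ∣ k
  lo : Real.log x ^ A ≤ (q.primeFactors.card : ℝ)
  hi : (q.primeFactors.card : ℝ) ≤ 2 * Real.log x ^ A

section NF

variable {K : Type} [Field K] [NumberField K]

open scoped Classical in
/-- the primes `p` of `q` for which `(p)` does not divide `d` -/
noncomputable def Pd (q : ℕ) (d : Ideal (𝓞 K)) : Finset ℕ :=
  q.primeFactors.filter fun p => ¬ d ≤ Ideal.span {(p : 𝓞 K)}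

/-- the product of the primes in `Pd` -/
noncomputable def pd (q : ℕ) (d : Ideal (𝓞 K)) : ℝ := ∏ p ∈ Pd q d, (p : ℝ)

open scoped Classical in
/-- the product of the other primes -/
noncomputable def qd (q : ℕ) (d : Ideal (𝓞 K)) : ℕ := ∏ p ∈ q.primeFactors \ Pd q d, p

open scoped Classical in
/-- the squarefree ideals of norm at most `M` prime to `m`, as sets of primes -/
noncomputable def DMc (m : Ideal (𝓞 K)) (M : ℝ) : Finset (Finset (PrI K)) :=
  (DM K M).filter fun S => ∀ P ∈ S, ¬ m ≤ P.1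

/-- the contribution of the relation `(I, J)` to the second moment (`S`, `T` prime to `m`) -/
noncomputable def Dr (m : Ideal (𝓞 K)) (Q M : ℝ) (I J : Ideal (𝓞 K)) : ℂ :=
  (((nm I * nm J) ^ (-(1 / 2) : ℝ) : ℝ) : ℂ) * ∑ S ∈ DMc m M, ∑ T ∈ DMc m M,
    ((xw K M S * xw K M T * (gg np (pf I) (pf J) S T / (nS np S * nS np T)) : ℝ) : ℂ) *
      Sm m (Q * gg np (pf I) (pf J) S T ^ 2 / (nS np S * nS np T * (nm I * nm J)))

/-- `∑ 1 / N(P)` over the primes which divide `m` -/
noncomputable def rc (m : Ideal (𝓞 K)) : ℝ := ∑ P ∈ pf m, (np P)⁻¹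

/-- the length of the mollifier -/
noncomputable def Mo (K : Type) [Field K] [NumberField K] (ε : ℝ) (q : ℕ) : ℝ :=
  nm (qi K q) ^ (1 / 2 - ε)

/-- the length of the first sum -/
noncomputable def Xr (K : Type) [Field K] [NumberField K] (q : ℕ) : ℝ :=
  cnd K (qi K q) ^ (9 / 8 : ℝ)

/-- the weight of a pair of ideals -/
noncomputable def wt (p : Ideal (𝓞 K) × Ideal (𝓞 K)) : ℝ :=
  (2 : ℝ) ^ ((pf p.1).card + (pf p.2).card) * (nm p.1 * nm p.2) ^ (-(1 / 2) : ℝ)

end NF

end Pool.Agent.H20.SM
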