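import Pool.Agent.H20.SM.Targets

/-!
# A cofinal family of Galois extensions: the last targets, all Frobenius elements at once
-/

set_option autoImplicit false

open NumberField NumberField.InfinitePlace Complex Filter Topology MeasureTheory

namespace Pool.Agent.H20.SM

open Pool.Agent.H28.RC Pool.Agent.H25.HK Pool.Agent.H37.CV Pool.Agent.H37.CA

/-- (FIs) the proportion of the irreducible characters, all Frobenius elements at once. -/
def T_FIs : Prop :=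
  ∀ (F : Type) [Field F] [NumberField F] [IsTotallyComplex F] [IsGalois ℚ F],
    ∃ A₀ : ℕ, ∀ (A : ℕ) (ε : ℝ), A₀ ≤ A → 0 < ε →
    ∃ x₀ : ℝ, ∀ (x : ℝ) (q : ℕ), x₀ ≤ x → Sp F A x q →
      ∀ (L : Type) [Field L] [NumberField L] [Algebra F L] [IsGalois ℚ L],
      IsRCF F L (qi F q) → (Irr (L ≃ₐ[ℚ] L)).Finite ∧
      (1 / 3 - ε) * (Irr (L ≃ₐ[ℚ] L)).ncard ≤
        ({f | f ∈ Irr (L ≃ₐ[ℚ] L) ∧ f 1 = Module.finrank ℚ F ∧ nu f = 0 ∧
          ∀ D : Frb L, NV D f}.ncard : ℝ)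

/-- (MAINs) the theorem. -/
def T_MAINs : Prop :=
  ∀ (F : Type) [Field F] [NumberField F] [IsTotallyComplex F] [IsGalois ℚ F] (ε : ℝ) (N : ℕ),
    0 < ε → ∃ q : ℕ, N ≤ q ∧ Squarefree q ∧ (∀ p ∈ q.primeFactors, N ≤ p ∧ Spl F p) ∧
      ∀ (L : Type) [Field L] [NumberField L] [Algebra F L] [IsGalois ℚ L],
      IsRCF F L (qi F q) → (Irr (L ≃ₐ[ℚ] L)).Finite ∧
      (1 / 3 - ε) * (Irr (L ≃ₐ[ℚ] L)).ncard ≤
        ({f | f ∈ Irr (L ≃ₐ[ℚ] L) ∧ f 1 = Module.finrank ℚ F ∧ nu f = 0 ∧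
          ∀ D : Frb L, NV D f}.ncard : ℝ)

theorem pf_MAINs (hP : T_POOL) (hFI : T_FIs) : T_MAINs := by
  intro F _ _ _ _ ε N hε
  obtain ⟨A₀, h⟩ := hFI F
  obtain ⟨x₀, h⟩ := h (max A₀ 1) ε (le_max_left _ _) hε
  obtain ⟨x, q, hx, hq⟩ := hP F (max A₀ 1) (max x₀ (max ((N : ℝ) ^ 2) (Real.exp 1)))
  have hx1 : x₀ ≤ x := (le_max_left _ _).trans hx
  have hx2 : (N : ℝ) ^ 2 ≤ x := ((le_max_left _ _).trans (le_max_right _ _)).trans hx
  have hx3 : Real.exp 1 ≤ x := ((le_max_right _ _).trans (le_max_right _ _)).trans hx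
  have h1 : (N : ℝ) ≤ Real.sqrt x := Real.le_sqrt_of_sq_le hx2
  have h3 : ∀ p ∈ q.primeFactors, N ≤ p := fun p hp => by
    have h2 : (N : ℝ) ≤ (p : ℝ) := h1.trans (hq.low p hp)
    exact_mod_cast h2
  refine ⟨q, ?_, hq.sq.1, fun p hp => ⟨h3 p hp, hq.sq.2 p hp⟩,
    fun L _ _ _ _ hL => h x q hx1 hq L hL⟩
  have hlog : 1 ≤ Real.log x := by
    rw [← Real.log_exp 1]
    exact Real.log_le_log (Real.exp_pos _) hx3
  have hcard : (1 : ℝ) ≤ (q.primeFactors.card : ℝ) :=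
    (one_le_pow₀ hlog).trans hq.lo
  have hcard' : 0 < q.primeFactors.card := by
    have : (0 : ℝ) < (q.primeFactors.card : ℝ) := by linarith
    exact_mod_cast this
  obtain ⟨p, hp⟩ := Finset.card_pos.mp hcard'
  have h4 : p ≤ q := Nat.le_of_dvd (Nat.pos_of_ne_zero hq.sq.1.ne_zero)
    (Nat.dvd_of_mem_primeFactors hp)
  exact (h3 p hp).trans h4

end Pool.Agent.H20.SM
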