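import Pool.Agent.H20.SM.Targets

/-!
# A cofinal family of Galois extensions: the theorem
-/

set_option autoImplicit false

open NumberField Filter

namespace Pool.Agent.H20.SM

open Pool.Agent.H28.RC Pool.Agent.H25.HK Pool.Agent.H37.CV

theorem pf_MAIN (hP : T_POOL) (hFI : T_FIq) : T_MAIN := by
  intro F _ _ _ _ ε N hε
  obtain ⟨A₀, h⟩ := hFI F
  obtain ⟨x₀, h⟩ := h (max A₀ 1) ε (le_max_left _ _) hε
  obtain ⟨x, q, hx, hq⟩ := hP F (max A₀ 1) (max x₀ (max ((N : ℝ) ^ 2) (Real.exp 1)))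
  have hx1 : x₀ ≤ x := (le_max_left _ _).trans hx
  have hx2 : (N : ℝ) ^ 2 ≤ x := ((le_max_left _ _).trans (le_max_right _ _)).trans hx
  have hx3 : Real.exp 1 ≤ x := ((le_max_right _ _).trans (le_max_right _ _)).trans hx
  refine ⟨q, ?_, hq.sq.1, fun L _ _ _ _ hL D => h x q hx1 hq L hL D⟩
  have hlog : 1 ≤ Real.log x := by
    rw [← Real.log_exp 1]
    exact Real.log_le_log (Real.exp_pos _) hx3
  have hcard : (1 : ℝ) ≤ (q.primeFactors.card : ℝ) :=
    (one_le_pow₀ hlog).trans hq.lo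
  have hcard' : 0 < q.primeFactors.card := by
    have : (0 : ℝ) < (q.primeFactors.card : ℝ) := by linarith
    exact_mod_cast this
  obtain ⟨p, hp⟩ := Finset.card_pos.mp hcard'
  have h1 : (N : ℝ) ≤ Real.sqrt x := Real.le_sqrt_of_sq_le hx2
  have h2 : (N : ℝ) ≤ (p : ℝ) := h1.trans (hq.low p hp)
  have h3 : N ≤ p := by exact_mod_cast h2
  have h4 : p ≤ q := Nat.le_of_dvd (Nat.pos_of_ne_zero hq.sq.1.ne_zero)
    (Nat.dvd_of_mem_primeFactors hp)
  exact h3.trans h4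

end Pool.Agent.H20.SM
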