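import Pool.Agent.H20.SM.TZ

/-!
# A cofinal family of Galois extensions: central values and zeros
-/

set_option autoImplicit false

open NumberField Filter

namespace Pool.Agent.H20.SM

open Pool.Agent.H28.RC Pool.Agent.H25.HK Pool.Agent.H37.CV

theorem pf_MAINz (hPOOL : T_POOL) (hFI : T_FIs) (hFG : T_FGz) : T_MAINz := by
  intro F _ _ _ _ ε hε
  obtain ⟨A₀, h⟩ := hFI F
  obtain ⟨A₁, h'⟩ := hFG F
  obtain ⟨A, hA⟩ : ∃ A : ℕ, A = max (max A₀ A₁) 1 := ⟨_, rfl⟩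
  have hA0 : A₀ ≤ A := by rw [hA]; exact (le_max_left _ _).trans (le_max_left _ _)
  have hA1 : A₁ ≤ A := by rw [hA]; exact (le_max_right _ _).trans (le_max_left _ _)
  obtain ⟨x₁, h1⟩ := h A ε hA0 hε
  obtain ⟨T₀, hT₀, h2⟩ := h' A ε hA1 hε
  refine ⟨T₀, hT₀, fun T N hT => ?_⟩
  obtain ⟨x₂, h2⟩ := h2 T hT
  obtain ⟨x, q, hx, hq⟩ := hPOOL F A (max (max x₁ x₂) (max ((N : ℝ) ^ 2) (Real.exp 1)))
  have hx1 : x₁ ≤ x := ((le_max_left _ _).trans (le_max_left _ _)).trans hx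
  have hx2 : x₂ ≤ x := ((le_max_right _ _).trans (le_max_left _ _)).trans hx
  have hx3 : (N : ℝ) ^ 2 ≤ x := ((le_max_left _ _).trans (le_max_right _ _)).trans hx
  have hx4 : Real.exp 1 ≤ x := ((le_max_right _ _).trans (le_max_right _ _)).trans hx
  have h3 : ∀ p ∈ q.primeFactors, N ≤ p := fun p hp => by
    have h4 : (N : ℝ) ≤ (p : ℝ) := (Real.le_sqrt_of_sq_le hx3).trans (hq.low p hp)
    exact_mod_cast h4
  have hlog : 1 ≤ Real.log x := by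
    rw [← Real.log_exp 1]
    exact Real.log_le_log (Real.exp_pos _) hx4
  have hcard : (1 : ℝ) ≤ (q.primeFactors.card : ℝ) :=
    (one_le_pow₀ hlog).trans hq.lo
  have hcard' : 0 < q.primeFactors.card := by
    have : (0 : ℝ) < (q.primeFactors.card : ℝ) := by linarith
    exact_mod_cast this
  obtain ⟨p, hp⟩ := Finset.card_pos.mp hcard'
  have h4 : p ≤ q := Nat.le_of_dvd (Nat.pos_of_ne_zero hq.sq.1.ne_zero)
    (Nat.dvd_of_mem_primeFactors hp)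
  refine ⟨q, (h3 p hp).trans h4, hq.sq.1, fun p hp => ⟨h3 p hp, hq.sq.2 p hp⟩,
    fun L _ _ _ _ hL => ?_⟩
  obtain ⟨k1, k2⟩ := h1 x q hx1 hq L hL
  obtain ⟨-, U, Λ, k3⟩ := h2 x q hx2 hq L hL
  exact ⟨k1, k2, U, Λ, k3⟩

end Pool.Agent.H20.SM
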