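import Pool.Agent.H20.SM.Targets
import Pool.Agent.H30.BV.Targets

/-!
# A cofinal family of Galois extensions: targets, the pool of primes

The Siegel-Walfisz theorem (with one exceptional modulus) for the primes which split completely in a
totally complex Galois field `F`; all estimates are on `Re s > 1` as in `Pool/Agent/H30/BV`.
-/

set_option autoImplicit false

open NumberField NumberField.InfinitePlace Complex Filter Topology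

namespace Pool.Agent.H20.SM

open Pool.Agent.H28.RC Pool.Agent.H25.HK Pool.Agent.H37.CV
open Pool.Agent.H30.BV (cv DS TX wx WX NX)

/-- the conductors -/
def Rok (F : Type) [Field F] [NumberField F] (r : ℕ) : Prop :=
  Squarefree r ∧ ∀ p ∈ r.primeFactors, 7 ≤ p ∧ ¬ (p : ℤ) ∣ discr F

/-- the number of the ideals of norm `n` -/
noncomputable def aF (F : Type) [Field F] [NumberField F] (n : ℕ) : ℝ :=
  ({I : Ideal (𝓞 F) | Ideal.absNorm I = n}.ncard : ℝ)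

/-- `Λ(n) g(n)` is the sum of `log N(P)` over the prime ideals `P` and `j ≥ 1` with `N(P)^j = n` -/
noncomputable def gF (F : Type) [Field F] [NumberField F] (n : ℕ) : ℝ :=
  (∑ᶠ P ∈ {P : Ideal (𝓞 F) | P.IsPrime ∧ P ≠ ⊥ ∧ ∃ j : ℕ, 1 ≤ j ∧ Ideal.absNorm P ^ j = n},
    Real.log (Ideal.absNorm P)) / ArithmeticFunction.vonMangoldt n

/-- the coefficients of the `L`-function of `χ ∘ N` -/
noncomputable def ac (F : Type) [Field F] [NumberField F] {r : ℕ} (χ : DirichletCharacter ℂ r)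
    (n : ℕ) : ℂ := (aF F n : ℂ) * cv χ n

/-- the coefficients of the logarithmic derivative, without `Λ` -/
noncomputable def gc (F : Type) [Field F] [NumberField F] {r : ℕ} (χ : DirichletCharacter ℂ r)
    (n : ℕ) : ℂ := (gF F n : ℂ) * cv χ n

/-- (NRC) `χ ∘ N` is a primitive ray class character. -/
def T_NRC : Prop :=
  ∀ (F : Type) [Field F] [NumberField F] [IsTotallyComplex F] (r : ℕ)
    (χ : DirichletCharacter ℂ r), 2 ≤ r → Rok F r → χ.IsPrimitive →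
    ∃ ρ : RCC F, ρ.f = qi F r ∧ ∀ I : Ideal (𝓞 F), ρ.ψ I = χ ((Ideal.absNorm I : ℕ) : ZMod r)

/-- (CFF) the coefficients. -/
def T_CFF : Prop :=
  ∀ (F : Type) [Field F] [NumberField F],
    (∀ n : ℕ, 0 ≤ gF F n ∧ gF F n ≤ Module.finrank ℚ F) ∧
    (∀ s : ℂ, 1 < s.re → LSeriesSummable (fun n => (aF F n : ℂ)) s) ∧
    (∀ (r : ℕ) (χ : DirichletCharacter ℂ r) (s : ℂ), 1 ≤ r → 1 < s.re →
      (∀ k : ℕ, LSeriesSummable (fun n => ac F χ n * ((Real.log n ^ k : ℝ) : ℂ)) s ∧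
        LSeriesSummable (fun n => (ArithmeticFunction.vonMangoldt n : ℂ) * gc F χ n *
          ((Real.log n ^ k : ℝ) : ℂ)) s) ∧
      DS (ac F χ) 0 s ≠ 0 ∧
      DS (ac F χ) 1 s = DS (ac F χ) 0 s *
        DS (fun n => (ArithmeticFunction.vonMangoldt n : ℂ) * gc F χ n) 0 s)

/-- (LBF) upper bounds, primitive characters. -/
def T_LBF : Prop :=
  ∀ (F : Type) [Field F] [NumberField F] [IsTotallyComplex F] (k : ℕ), ∃ (C : ℝ) (E : ℕ), 0 < C ∧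
    ∀ (r : ℕ) (χ : DirichletCharacter ℂ r) (s : ℂ), 2 ≤ r → Rok F r → χ.IsPrimitive →
      1 < s.re → s.re ≤ 3 → ‖DS (ac F χ) k s‖ ≤ C * Real.log (r * (|s.im| + 3)) ^ E

/-- (UBF) upper bounds, all characters. -/
def T_UBF : Prop :=
  ∀ (F : Type) [Field F] [NumberField F] [IsTotallyComplex F], ∃ (C : ℝ) (E : ℕ), 0 < C ∧
    ∀ (r : ℕ) (χ : DirichletCharacter ℂ r) (s : ℂ), 1 ≤ r → Rok F r → 1 < s.re → s.re ≤ 3 →
      (χ ≠ 1 → ‖DS (ac F χ) 0 s‖ ≤ C * Real.log (r * (|s.im| + 3)) ^ E) ∧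
      (χ = 1 → ‖DS (ac F χ) 0 s‖ ≤ C * (1 + 1 / ‖s - 1‖) * Real.log (r * (|s.im| + 3)) ^ E)

/-- (TLF) trivial lower bound. -/
def T_TLF : Prop :=
  ∀ (F : Type) [Field F] [NumberField F] [IsTotallyComplex F], ∃ c : ℝ, 0 < c ∧
    ∀ (r : ℕ) (χ : DirichletCharacter ℂ r) (s : ℂ), 1 ≤ r → 1 < s.re → s.re ≤ 3 →
      c * (s.re - 1) ≤ ‖DS (ac F χ) 0 s‖ ∧ ‖DS (fun n => (aF F n : ℂ)) 0 s‖ ≤ 1 / (c * (s.re - 1))

/-- (DVF) Lipschitz bound. -/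
def T_DVF : Prop :=
  ∀ (F : Type) [Field F] [NumberField F] [IsTotallyComplex F], ∃ (C : ℝ) (E : ℕ), 0 < C ∧
    ∀ (r : ℕ) (χ : DirichletCharacter ℂ r) (T : ℝ) (s₁ s₂ : ℂ), 2 ≤ r → Rok F r →
      χ.IsPrimitive → 0 ≤ T → 1 < s₁.re → s₁.re ≤ 3 → 1 < s₂.re → s₂.re ≤ 3 → |s₁.im| ≤ T →
      |s₂.im| ≤ T →
      ‖DS (ac F χ) 0 s₁ - DS (ac F χ) 0 s₂‖ ≤ C * Real.log (r * (T + 3)) ^ E * ‖s₁ - s₂‖

/-- (C4F) lower bound by the 3-4-1 inequality. -/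
def T_C4F : Prop :=
  ∀ (F : Type) [Field F] [NumberField F] [IsTotallyComplex F], ∃ (c : ℝ) (E : ℕ), 0 < c ∧
    ∀ (r : ℕ) (χ : DirichletCharacter ℂ r) (η : ℝ) (s : ℂ), 2 ≤ r → Rok F r → χ.IsPrimitive →
      0 < η → η ≤ 1 → 1 < s.re → s.re ≤ 2 → (χ ^ 2 ≠ 1 ∨ η ≤ |s.im|) →
        c * η / Real.log (r * (|s.im| + 3)) ^ E ≤ ‖DS (ac F χ) 0 s‖

/-- (RPF) product of four real functions. -/
def T_RPF : Prop :=
  ∀ (F : Type) [Field F] [NumberField F] [IsTotallyComplex F] (q₁ q₂ : ℕ)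
    (χ₁ : DirichletCharacter ℂ q₁) (χ₂ : DirichletCharacter ℂ q₂)
    (x : ℝ), 1 ≤ q₁ → 1 ≤ q₂ → χ₁ ^ 2 = 1 → χ₂ ^ 2 = 1 → 0 < x → x ≤ 1 →
    1 ≤ ‖DS (fun n => (aF F n : ℂ)) 0 (1 + x)‖ * ‖DS (ac F χ₁) 0 (1 + x)‖ *
      ‖DS (ac F χ₂) 0 (1 + x)‖ * ‖DS (fun n => (aF F n : ℂ) * (cv χ₁ n * cv χ₂ n)) 0 (1 + x)‖

/-- (EAF) two real characters cannot both be exceptional. -/
def T_EAF : Prop :=
  ∀ (F : Type) [Field F] [NumberField F] [IsTotallyComplex F], ∃ (C : ℝ) (E : ℕ), 0 < C ∧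
    ∀ (Q q₁ q₂ : ℕ) (χ₁ : DirichletCharacter ℂ q₁) (χ₂ : DirichletCharacter ℂ q₂) (x : ℝ),
      3 ≤ Q → 2 ≤ q₁ → q₁ ≤ Q → 2 ≤ q₂ → q₂ ≤ Q → q₁ ≠ q₂ → Rok F q₁ → Rok F q₂ →
      χ₁.IsPrimitive → χ₂.IsPrimitive → χ₁ ^ 2 = 1 → χ₂ ^ 2 = 1 → 0 < x → x ≤ 1 →
      1 ≤ C / x * ‖DS (ac F χ₁) 0 (1 + x)‖ * ‖DS (ac F χ₂) 0 (1 + x)‖ * Real.log Q ^ E

/-- (LOF) lower bound for all moduli except one. -/
def T_LOF : Prop :=
  ∀ (F : Type) [Field F] [NumberField F] [IsTotallyComplex F], ∃ (K : ℕ) (c : ℝ), 0 < c ∧ c ≤ 1 ∧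
    ∀ Q : ℕ, 3 ≤ Q → ∃ q₁ : ℕ, ∀ (r : ℕ) (χ : DirichletCharacter ℂ r) (s : ℂ), 2 ≤ r → r ≤ Q →
      r ≠ q₁ → Rok F r → χ.IsPrimitive → 1 < s.re → s.re ≤ 2 →
      c / (Real.log Q * Real.log (|s.im| + 3)) ^ K ≤ ‖DS (ac F χ) 0 s‖

/-- (GBF) derivatives of the logarithmic derivative. -/
def T_GBF : Prop :=
  ∀ (F : Type) [Field F] [NumberField F] [IsTotallyComplex F] (k : ℕ), ∃ (C : ℝ) (E : ℕ), 0 < C ∧
    ∀ (r : ℕ) (χ : DirichletCharacter ℂ r) (s : ℂ) (m : ℝ), 2 ≤ r → Rok F r → χ.IsPrimitive →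
      1 < s.re → s.re ≤ 2 → 0 < m → m ≤ 1 → m ≤ ‖DS (ac F χ) 0 s‖ →
      ‖DS (fun n => (ArithmeticFunction.vonMangoldt n : ℂ) * gc F χ n) k s‖ ≤
        C * (Real.log (r * (|s.im| + 3)) / m) ^ E

/-- (SWF) small conductors, with one exceptional modulus. -/
def T_SWF : Prop :=
  ∀ (F : Type) [Field F] [NumberField F] [IsTotallyComplex F] (A B : ℕ), ∃ X₀ : ℝ, ∀ X : ℝ,
    X₀ ≤ X → ∃ q₁ : ℕ, ∀ (r : ℕ) (χ : DirichletCharacter ℂ r), 2 ≤ r →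
      (r : ℝ) ≤ Real.log X ^ A → r ≠ q₁ → Rok F r → χ.IsPrimitive →
      ‖TX X (gc F χ)‖ ≤ X / Real.log X ^ B

/-- (PNF) the prime ideal theorem. -/
def T_PNF : Prop :=
  ∀ (F : Type) [Field F] [NumberField F] [IsTotallyComplex F], ∃ c X₀ : ℝ, 0 < c ∧ ∀ X : ℝ,
    X₀ ≤ X → c * X ≤ ∑ n ∈ Finset.Icc 1 (NX X), wx X n * gF F n

/-- (APF) arithmetic progressions. -/
def T_APF : Prop :=
  ∀ (F : Type) [Field F] [NumberField F] [IsTotallyComplex F] (A : ℕ), ∃ c X₀ : ℝ, 0 < c ∧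
    ∀ X : ℝ, X₀ ≤ X → ∃ q₁ : ℕ, ∀ d : ℕ, 1 ≤ d → (d : ℝ) ≤ Real.log X ^ A → Rok F d →
      ¬ (2 ≤ q₁ ∧ q₁ ∣ d) →
      c * X / d ≤ ∑ n ∈ (Finset.Icc 1 (NX X)).filter (fun n : ℕ => (n : ZMod d) = 1),
        wx X n * gF F n

open scoped Classical in
/-- (PRM) primes which split completely in arithmetic progressions. -/
def T_PRM : Prop :=
  ∀ (F : Type) [Field F] [NumberField F] [IsTotallyComplex F] [IsGalois ℚ F] (A : ℕ),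
    ∃ c x₀ : ℝ, 0 < c ∧ ∀ x : ℝ, x₀ ≤ x → ∃ q₁ : ℕ, ∀ d : ℕ, 1 ≤ d →
      (d : ℝ) ≤ Real.log x ^ A → Rok F d → ¬ (2 ≤ q₁ ∧ q₁ ∣ d) →
      c * x / (d * Real.log x) ≤
        (((Finset.Icc 1 ⌊x⌋₊).filter fun p => Spl F p ∧ Real.sqrt x ≤ p ∧ d ∣ p - 1).card : ℝ)

end Pool.Agent.H20.SM
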