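import Pool.Agent.H20.SM.Targets2
import Pool.Agent.H65.CRG.TD
import Pool.Agent.H31.CRG.TR

/-!
# A cofinal family of Galois extensions: targets, the zeros on the critical line

The model is `Pool/Agent/H65/CRG` and `Pool/Agent/H31/CRG`; the length of the mollifier is
`N(q)^(1/2 - ε)`.
-/

set_option autoImplicit false

open NumberField NumberField.InfinitePlace Complex Filter Topology MeasureTheory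

namespace Pool.Agent.H20.SM

open Pool.Agent.H28.RC Pool.Agent.H25.HK Pool.Agent.H37.CV Pool.Agent.H65.CRZ Pool.Agent.H65.CRG

section NF

variable {K : Type} [Field K] [NumberField K]

/-- the contribution of the relation `(J₁, J₂)`, with shifts (`S`, `T` prime to `m`) -/
noncomputable def Dz (m : Ideal (𝓞 K)) (Q M : ℝ) (s₁ s₂ : ℂ) (c₁ c₂ : Finset (PrI K) → ℂ)
    (J₁ J₂ : Ideal (𝓞 K)) : ℂ :=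
  ((nm J₁ : ℝ) : ℂ) ^ (-s₁) * ((nm J₂ : ℝ) : ℂ) ^ (-s₂) * ∑ S ∈ DMc m M, ∑ T ∈ DMc m M,
    c₁ S * c₂ T * (((nS np T / gg np (pf J₁) (pf J₂) S T : ℝ) : ℂ) ^ (-s₁) *
      ((nS np S / gg np (pf J₁) (pf J₂) S T : ℝ) : ℂ) ^ (-s₂)) *
      Sn m s₁ s₂ (Q * gg np (pf J₁) (pf J₂) S T ^ 2 / (nS np S * nS np T * (nm J₁ * nm J₂)))

/-- the mollified auxiliary function -/
noncomputable def fz (N : ℕ) (m : ℕ → ℝ) (R ε : ℝ) (q : ℕ) (χ : RCC K) (s : ℂ) : ℂ :=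
  VQ (nrComplexPlaces K) N m (cB K (qi K q)) (Zx χ) s * ml (Mo K ε q) (sl K R q) χ.ψ s

end NF

/-! ### A. The weights and the sums over the ideals -/

/-- (CQz) the parameters. -/
def T_CQz : Prop :=
  ∀ (K : Type) [Field K] [NumberField K] [IsTotallyComplex K], 1 ≤ nrComplexPlaces K ∧
    Module.finrank ℚ K = 2 * nrComplexPlaces K ∧ ∃ c : ℝ, 0 < c ∧ ∀ q : ℕ, 1 ≤ q →
      cB K (qi K q) = c * (q : ℝ) ^ nrComplexPlaces K ∧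
        nm (qi K q) = (q : ℝ) ^ Module.finrank ℚ K

/-- (VBz) the weights are bounded. -/
def T_VBz : Prop :=
  ∀ (n : ℕ) (a : ℝ), 0 ≤ a → ∃ C B : ℝ, 0 < C ∧ 0 ≤ B ∧ ∀ s₁ s₂ : ℂ, 1 / 4 ≤ s₁.re →
    s₁.re ≤ 3 / 4 → 1 / 4 ≤ s₂.re → s₂.re ≤ 3 / 4 → ∀ x : ℝ, 0 < x →
      ‖Vn n s₁ s₂ x‖ ≤ C * (1 + |s₁.im| + |s₂.im|) ^ B * min 1 (x ^ (-a))

/-- (SNz) the sums over the ideals, with logarithms. -/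
def T_SNz : Prop :=
  ∀ (K : Type) [Field K] [NumberField K] (C₀ a : ℝ), 0 < C₀ → 1 / 4 ≤ a →
    ∃ C B : ℝ, 0 < C ∧ 0 ≤ B ∧ ∀ (m : Ideal (𝓞 K)) (s₁ s₂ : ℂ) (Y : ℝ),
      |s₁.re - 1 / 2| ≤ 1 / 16 → |s₂.re - 1 / 2| ≤ 1 / 16 → 0 < Y →
      |(s₁ + s₂).re - 1| * Real.log (2 + Y) ≤ C₀ →
      ‖Sn m s₁ s₂ Y‖ ≤ C * (1 + |s₁.im| + |s₂.im|) ^ B *
        ((1 + max (Real.log Y) 0) * min 1 (Y ^ a)) ∧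
      (m ≠ ⊥ → ‖Sn m s₁ s₂ Y - Sn (K := K) ⊤ s₁ s₂ Y‖ ≤
        C * (1 + |s₁.im| + |s₂.im|) ^ B *
          ((1 + max (Real.log Y) 0) * min 1 (Y ^ a) * rc m))

/-- (OPz) the second moment opened. -/
def T_OPz : Prop :=
  ∀ (K : Type) [Field K] [NumberField K] [IsTotallyComplex K] (m d : Ideal (𝓞 K)) (Q M : ℝ)
    (s₁ s₂ : ℂ) (c₁ c₂ : Finset (PrI K) → ℂ), m ≠ ⊥ → m ≤ d → 0 < Q → 1 ≤ M →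
    3 / 8 ≤ s₁.re → s₁.re ≤ 5 / 8 → 3 / 8 ≤ s₂.re → s₂.re ≤ 5 / 8 →
    Summable (fun p : CP m d => ‖Dz m Q M s₁ s₂ c₁ c₂ p.1.1 p.1.2‖) ∧
    ∑ᶠ ψ ∈ Ch m d, A2n Q s₁ s₂ ψ * (pol M c₁ ψ *
        pol M c₂ (fun I => (starRingEnd ℂ) (ψ I))) =
      nc m d * ∑' p : CP m d, Dz m Q M s₁ s₂ c₁ c₂ p.1.1 p.1.2

/-- (DTz) the trivial bound of `Dz`, with logarithms. -/
def T_DTz : Prop :=
  ∀ (K : Type) [Field K] [NumberField K] [IsTotallyComplex K] (C₀ : ℝ) (A : ℕ), 0 < C₀ →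
    ∃ (C B : ℝ) (k : ℕ), 0 < C ∧ 0 ≤ B ∧
    ∀ (m : Ideal (𝓞 K)) (Q M : ℝ) (s₁ s₂ : ℂ) (c₁ c₂ : Finset (PrI K) → ℂ)
      (J₁ J₂ : Ideal (𝓞 K)), 1 ≤ Q → 1 ≤ M →
      |s₁.re - 1 / 2| ≤ 1 / 16 → |s₂.re - 1 / 2| ≤ 1 / 16 →
      |s₁.re - 1 / 2| * (1 + Real.log Q + Real.log M) ≤ C₀ →
      |s₂.re - 1 / 2| * (1 + Real.log Q + Real.log M) ≤ C₀ →
      (∀ S, ‖c₁ S‖ ≤ nS np S ^ (-(1 / 2) : ℝ)) → (∀ S, ‖c₂ S‖ ≤ nS np S ^ (-(1 / 2) : ℝ)) →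
      J₁ ≠ ⊥ → J₂ ≠ ⊥ → J₁ ⊔ J₂ = ⊤ →
      ‖Dz m Q M s₁ s₂ c₁ c₂ J₁ J₂‖ ≤ C * (1 + |s₁.im| + |s₂.im|) ^ B * wt (J₁, J₂) *
        (1 + Real.log Q + Real.log M) ^ k * min 1 ((Q * M ^ 2 / (nm J₁ * nm J₂)) ^ A)

/-- (RSz) the primes of `m` do not matter. -/
def T_RSz : Prop :=
  ∀ (K : Type) [Field K] [NumberField K] [IsTotallyComplex K] (C₀ : ℝ), 0 < C₀ →
    ∃ (C B : ℝ) (k : ℕ), 0 < C ∧ 0 ≤ B ∧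
    ∀ (m : Ideal (𝓞 K)) (Q M : ℝ) (s₁ s₂ : ℂ) (c₁ c₂ : Finset (PrI K) → ℂ)
      (J₁ J₂ : Ideal (𝓞 K)), m ≠ ⊥ → 1 ≤ Q → 1 ≤ M →
      |s₁.re - 1 / 2| ≤ 1 / 16 → |s₂.re - 1 / 2| ≤ 1 / 16 →
      |s₁.re - 1 / 2| * (1 + Real.log Q + Real.log M) ≤ C₀ →
      |s₂.re - 1 / 2| * (1 + Real.log Q + Real.log M) ≤ C₀ →
      (∀ S, ‖c₁ S‖ ≤ nS np S ^ (-(1 / 2) : ℝ)) → (∀ S, ‖c₂ S‖ ≤ nS np S ^ (-(1 / 2) : ℝ)) →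
      J₁ ≠ ⊥ → J₂ ≠ ⊥ → J₁ ⊔ J₂ = ⊤ → J₁ ⊔ m = ⊤ → J₂ ⊔ m = ⊤ →
      ‖Dz m Q M s₁ s₂ c₁ c₂ J₁ J₂ - Dn (K := K) ⊤ Q M s₁ s₂ c₁ c₂ J₁ J₂‖ ≤
        C * (1 + |s₁.im| + |s₂.im|) ^ B * wt (J₁, J₂) *
          (1 + Real.log Q + Real.log M) ^ k * rc m

/-- (DEz) the terms with a small relation. -/
def T_DEz : Prop :=
  ∀ (K : Type) [Field K] [NumberField K] [IsTotallyComplex K] (δ₀ C₁ c C₀ : ℝ), 0 < δ₀ →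
    0 < C₁ → 0 < c → 0 < C₀ → ∃ δ C B M₀ : ℝ, 0 < δ ∧ 0 < C ∧ 0 ≤ B ∧
    ∀ M A : ℝ, M₀ ≤ M → M ^ (1 + δ₀) ≤ A → A ≤ M ^ C₁ → ∀ (α β : ℂ) (u : ℝ),
      ‖α‖ ≤ C₀ / Real.log M → ‖β‖ ≤ C₀ / Real.log M → c / Real.log M ≤ ‖α + β‖ →
      ∀ J₁ J₂ : Ideal (𝓞 K), J₁ ≠ ⊥ → J₂ ≠ ⊥ → J₁ ≠ ⊤ → J₂ ≠ ⊤ → J₁ ⊔ J₂ = ⊤ →
      nm J₁ * nm J₂ ≤ M ^ δ →
      ‖Dn (K := K) ⊤ (A ^ 2) M (1 / 2 + α + u * I) (1 / 2 + β - u * I) (cu K M u)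
          (cu K M (-u)) J₁ J₂‖ ≤
        C / Real.log M * (1 + |u|) ^ B * wt (J₁, J₂) * (1 + Real.log (nm J₁ * nm J₂))

/-- (DIz) the diagonal term. -/
def T_DIz : Prop :=
  ∀ (K : Type) [Field K] [NumberField K] [IsTotallyComplex K] (E : ℂ → ℂ) (δ₀ C₁ c C₀ : ℝ),
    IsE K E → 0 < δ₀ → 0 < C₁ → 0 < c → 0 < C₀ → ∃ B : ℝ, 0 ≤ B ∧ ∀ η : ℝ, 0 < η →
    ∃ M₀ : ℝ, ∀ M A : ℝ, M₀ ≤ M → M ^ (1 + δ₀) ≤ A → A ≤ M ^ C₁ → ∀ (α β : ℂ) (u : ℝ),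
      ‖α‖ ≤ C₀ / Real.log M → ‖β‖ ≤ C₀ / Real.log M → c / Real.log M ≤ ‖α + β‖ →
      ‖Dn (K := K) ⊤ (A ^ 2) M (1 / 2 + α + u * I) (1 / 2 + β - u * I) (cu K M u)
            (cu K M (-u)) ⊤ ⊤ +
          Xn (nrComplexPlaces K) A (1 / 2 + α + u * I) (1 / 2 + β - u * I) *
            Dn (K := K) ⊤ (A ^ 2) M (1 - (1 / 2 + β - u * I)) (1 - (1 / 2 + α + u * I))
              (cu K M u) (cu K M (-u)) ⊤ ⊤ -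
          (1 / (α + β) * E (1 + (α + β)) * Sd K M α β -
            Xn (nrComplexPlaces K) A (1 / 2 + α + u * I) (1 / 2 + β - u * I) *
              (1 / (α + β) * E (1 - (α + β)) * Sd K M (-β) (-α)))‖ ≤ η * (1 + |u|) ^ B

/-- (BMz) the main term. -/
def T_BMz : Prop :=
  ∀ (K : Type) [Field K] [NumberField K] [IsTotallyComplex K] (E : ℂ → ℂ) (C₁ c C₀ : ℝ),
    IsE K E → 0 < C₁ → 0 < c → 0 < C₀ → ∃ B : ℝ, 0 ≤ B ∧ ∀ η : ℝ, 0 < η →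
    ∃ M₀ : ℝ, ∀ M A : ℝ, M₀ ≤ M → M ≤ A → A ≤ M ^ C₁ → ∀ (α β : ℂ) (u : ℝ),
      ‖α‖ ≤ C₀ / Real.log M → ‖β‖ ≤ C₀ / Real.log M → c / Real.log M ≤ ‖α + β‖ →
      ‖1 / (α + β) * E (1 + (α + β)) * Sd K M α β -
            Xn (nrComplexPlaces K) A (1 / 2 + α + u * I) (1 / 2 + β - u * I) *
              (1 / (α + β) * E (1 - (α + β)) * Sd K M (-β) (-α)) -
          Bm α β (2 * Real.log A) (Real.log M)‖ ≤ η * (1 + |u|) ^ B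

/-! ### B. The second moment of the primitive characters -/

/-- (SRqz) the relations modulo `q`. -/
def T_SRqz : Prop :=
  ∀ (F : Type) [Field F] [NumberField F] [IsTotallyComplex F] [IsGalois ℚ F],
    ∃ A₀ : ℕ, ∀ (A : ℕ) (ε₁ c C₀ : ℝ), A₀ ≤ A → 0 < ε₁ → ε₁ < 1 / 2 → 0 < c → 0 < C₀ →
    ∃ B : ℝ, 0 ≤ B ∧ ∀ η : ℝ, 0 < η → ∃ x₀ : ℝ, ∀ (x : ℝ) (q : ℕ), x₀ ≤ x → Sp F A x q →
      ∀ (α β : ℂ) (u : ℝ), ‖α‖ ≤ C₀ / Real.log q → ‖β‖ ≤ C₀ / Real.log q →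
      c / Real.log q ≤ ‖α + β‖ → ∀ X : Finset (Ideal (𝓞 F) × Ideal (𝓞 F)),
      (∀ p ∈ X, p ∈ CP (qi F q) (qi F q) ∧ p ≠ (⊤, ⊤)) →
      ∑ p ∈ X, ‖Dz (qi F q) (cB F (qi F q) ^ 2) (Mo F ε₁ q) (1 / 2 + α + u * I)
          (1 / 2 + β - u * I) (cu F (Mo F ε₁ q) u) (cu F (Mo F ε₁ q) (-u)) p.1 p.2‖ ≤
        η * (1 + |u|) ^ B

/-- (SRdz) the relations modulo a proper divisor of `q`. -/
def T_SRdz : Prop :=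
  ∀ (F : Type) [Field F] [NumberField F] [IsTotallyComplex F] [IsGalois ℚ F]
    (A : ℕ) (ε₁ C₀ : ℝ), 1 ≤ A → 0 < ε₁ → ε₁ < 1 / 2 → 0 < C₀ →
    ∃ B : ℝ, 0 ≤ B ∧ ∃ x₀ : ℝ, ∀ (x : ℝ) (q : ℕ), x₀ ≤ x → Sp F A x q →
      ∀ (α β : ℂ) (u : ℝ), ‖α‖ ≤ C₀ / Real.log q → ‖β‖ ≤ C₀ / Real.log q →
      ∀ d : Ideal (𝓞 F), qi F q ≤ d → d ≠ qi F q →
      ∀ X : Finset (Ideal (𝓞 F) × Ideal (𝓞 F)), (∀ p ∈ X, p ∈ CP (qi F q) d) →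
      (nc (qi F q) d : ℝ) *
        ∑ p ∈ X, ‖Dz (qi F q) (cB F (qi F q) ^ 2) (Mo F ε₁ q) (1 / 2 + α + u * I)
          (1 / 2 + β - u * I) (cu F (Mo F ε₁ q) u) (cu F (Mo F ε₁ q) (-u)) p.1 p.2‖ ≤
      (1 + |u|) ^ B * (nc (qi F q) (qi F q) * (x ^ (1 / 8 : ℝ) * pd q d ^ (-(3 / 4) : ℝ) +
        nm (qi F q) ^ (-(ε₁ / 8))))

/-- (SEz) the second moment of the primitive characters. -/
def T_SEz : Prop :=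
  ∀ (F : Type) [Field F] [NumberField F] [IsTotallyComplex F] [IsGalois ℚ F],
    ∃ A₀ : ℕ, ∀ (A : ℕ) (ε₁ c C₀ : ℝ), A₀ ≤ A → 0 < ε₁ → ε₁ < 1 / 2 → 0 < c → 0 < C₀ →
    ∃ B : ℝ, 0 ≤ B ∧ ∀ η : ℝ, 0 < η → ∃ x₀ : ℝ, ∀ (x : ℝ) (q : ℕ), x₀ ≤ x → Sp F A x q →
      ∀ (α β : ℂ) (u : ℝ), ‖α‖ ≤ C₀ / Real.log q → ‖β‖ ≤ C₀ / Real.log q →
      c / Real.log q ≤ ‖α + β‖ →
      ‖(∑ᶠ χ ∈ Pr F (qi F q), A2n (cB F (qi F q) ^ 2) (1 / 2 + α + u * I)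
          (1 / 2 + β - u * I) χ.ψ * (pol (Mo F ε₁ q) (cu F (Mo F ε₁ q) u) χ.ψ *
            pol (Mo F ε₁ q) (cu F (Mo F ε₁ q) (-u)) (fun I => (starRingEnd ℂ) (χ.ψ I)))) -
        nc (qi F q) (qi F q) *
          Dn (K := F) ⊤ (cB F (qi F q) ^ 2) (Mo F ε₁ q) (1 / 2 + α + u * I)
            (1 / 2 + β - u * I) (cu F (Mo F ε₁ q) u) (cu F (Mo F ε₁ q) (-u)) ⊤ ⊤‖ ≤
        η * (1 + |u|) ^ B * nc (qi F q) (qi F q)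

/-- (Bz) the mollified second moment with shifts. -/
def T_Bz : Prop :=
  ∀ (F : Type) [Field F] [NumberField F] [IsTotallyComplex F] [IsGalois ℚ F],
    ∃ A₀ : ℕ, ∀ (A : ℕ) (ε₁ c C₀ : ℝ), A₀ ≤ A → 0 < ε₁ → ε₁ < 1 / 2 → 0 < c → 0 < C₀ →
    ∃ B : ℝ, 0 ≤ B ∧ ∀ η : ℝ, 0 < η → ∃ x₀ : ℝ, ∀ (x : ℝ) (q : ℕ), x₀ ≤ x → Sp F A x q →
      ∀ (α β : ℂ) (u : ℝ), ‖α‖ ≤ C₀ / Real.log q → ‖β‖ ≤ C₀ / Real.log q →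
      c / Real.log q ≤ ‖α + β‖ →
      ‖(∑ᶠ χ ∈ Pr F (qi F q), Zx χ (1 / 2 + α + u * I) *
            (starRingEnd ℂ) (Zx χ (1 / 2 + (starRingEnd ℂ) β + u * I)) *
              ((‖pol (Mo F ε₁ q) (cu F (Mo F ε₁ q) u) χ.ψ‖ ^ 2 : ℝ) : ℂ)) -
          nc (qi F q) (qi F q) * Bm α β (Lg F q) (Real.log (Mo F ε₁ q))‖ ≤
        η * (1 + |u|) ^ B * nc (qi F q) (qi F q)

/-! ### C. Growth and mean squares -/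

/-- (LFz) the `L`-functions have a functional equation of degree `2 n`. -/
def T_LFz : Prop :=
  ∀ (K : Type) [Field K] [NumberField K] [IsTotallyComplex K],
    ∃ (C : ℝ) (q₀ : ℕ), 1 ≤ C ∧ ∀ q : ℕ, q₀ ≤ q → ∀ χ ∈ Pr K (qi K q),
      IsEnt χ (Zx χ) ∧ LFg (nrComplexPlaces K) C (cB K (qi K q)) (Zx χ)

/-- (FBz) the auxiliary function far to the right. -/
def T_FBz : Prop :=
  ∀ (K : Type) [Field K] [NumberField K] [IsTotallyComplex K] (N : ℕ) (m : ℕ → ℝ) (R ε₁ : ℝ),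
    0 < 1 + pm N m (1 / 2) → 0 < R → 0 < ε₁ → ε₁ < 1 / 2 →
    ∃ C b₀ : ℝ, 1 ≤ C ∧ 4 ≤ b₀ ∧ ∀ b T : ℝ, b₀ ≤ b → 0 < T → ∃ q₀ : ℕ, ∀ q : ℕ,
      q₀ ≤ q → ∀ χ ∈ Pr K (qi K q), ∀ s : ℂ, 1 / 4 < s.re → s.re < 2 * b → |s.im| < T →
        DifferentiableAt ℂ (fz N m R ε₁ q χ) s ∧ (4 ≤ s.re → ‖fz N m R ε₁ q χ s‖ ≤ C) ∧
        (s.re = b → fz N m R ε₁ q χ s ≠ 0 ∧
          |Real.log ‖fz N m R ε₁ q χ s‖| ≤ C * (2 : ℝ) ^ (-b) ∧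
          ‖deriv (fz N m R ε₁ q χ) s‖ ≤ C * (2 : ℝ) ^ (-b) * ‖fz N m R ε₁ q χ s‖)

/-- (MSz) mean squares on the left line, with a shift. -/
def T_MSz : Prop :=
  ∀ (F : Type) [Field F] [NumberField F] [IsTotallyComplex F] [IsGalois ℚ F],
    ∃ A₀ : ℕ, ∀ (A : ℕ) (R ε₁ : ℝ), A₀ ≤ A → 0 < R → 0 < ε₁ → ε₁ < 1 / 2 →
    ∃ C B : ℝ, 0 < C ∧ 0 ≤ B ∧
    ∀ η : ℝ, 0 < η → ∃ x₀ : ℝ, ∀ (x : ℝ) (q : ℕ), x₀ ≤ x → Sp F A x q → ∀ (a : ℂ) (u : ℝ),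
      ‖a‖ ≤ R / (2 * Lg F q) →
      ∑ᶠ χ ∈ Pr F (qi F q), ‖Zx χ (sl F R q + u * I + a) *
          ml (Mo F ε₁ q) (sl F R q) χ.ψ (sl F R q + u * I)‖ ^ 2 ≤
        (C + η * (1 + |u|) ^ B) * nc (qi F q) (qi F q)

/-- (INz) mean squares of the auxiliary function. -/
def T_INz : Prop :=
  ∀ (F : Type) [Field F] [NumberField F] [IsTotallyComplex F] [IsGalois ℚ F],
    ∃ A₀ : ℕ, ∀ (A N : ℕ) (m : ℕ → ℝ) (R ε₁ : ℝ), A₀ ≤ A →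
    0 < 1 + pm N m (1 / 2) → 0 < R → 0 < ε₁ → ε₁ < 1 / 2 → ∃ C b₀ : ℝ, 1 ≤ C ∧ 4 ≤ b₀ ∧
    ∀ b T : ℝ, b₀ ≤ b → 0 < T → ∃ x₀ : ℝ, ∀ (x : ℝ) (q : ℕ), x₀ ≤ x → Sp F A x q →
      ∀ y t : ℝ, sl F R q ≤ y → y ≤ b → |t| ≤ T →
      ∑ᶠ χ ∈ Pr F (qi F q), ‖fz N m R ε₁ q χ (y + t * I)‖ ^ 2 ≤
        C * (Pr F (qi F q)).ncard

/-- (LEz) the mean square on the left line. -/
def T_LEz : Prop :=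
  ∀ (F : Type) [Field F] [NumberField F] [IsTotallyComplex F] [IsGalois ℚ F],
    ∃ A₀ : ℕ, ∀ (A N : ℕ) (m : ℕ → ℝ) (R ε₁ δ T : ℝ), A₀ ≤ A →
    0 < 1 + pm N m (1 / 2) → 0 < R → 0 < ε₁ → ε₁ < 1 / 2 → 0 < δ → 0 < T →
    ∃ x₀ : ℝ, ∀ (x : ℝ) (q : ℕ), x₀ ≤ x → Sp F A x q → ∀ t : ℝ, |t| ≤ T →
      ∑ᶠ χ ∈ Pr F (qi F q), ‖fz N m R ε₁ q χ (sl F R q + t * I)‖ ^ 2 ≤
        (cQ N m R ((1 - 2 * ε₁) / 2) + δ) * (Pr F (qi F q)).ncard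

/-! ### D. The theorem -/

/-- (FZz) the `L`-functions of the primitive ray class characters and their zeros. -/
def T_FZz : Prop :=
  ∀ (F : Type) [Field F] [NumberField F] [IsTotallyComplex F] [IsGalois ℚ F] (A : ℕ) (ε : ℝ),
    0 < ε → ∃ T₀ : ℝ, 0 < T₀ ∧ ∀ T : ℝ, T₀ ≤ T →
    ∃ x₀ : ℝ, ∀ (x : ℝ) (q : ℕ), x₀ ≤ x → Sp F A x q →
      (Pr F (qi F q)).Finite ∧ 0 < (Pr F (qi F q)).ncard ∧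
      ∀ χ ∈ Pr F (qi F q), IsEnt χ (Zx χ) ∧ {ρ : ℂ | ρ ∈ St T ∧ Zx χ ρ = 0}.Finite ∧
        zc (Zx χ) (St T) ≤
          (1 + ε) * (T / Real.pi * ((Module.finrank ℚ F : ℝ) / 2 * Real.log q))

/-- (FMz) the zeros on the critical line. -/
def T_FMz : Prop :=
  ∀ (F : Type) [Field F] [NumberField F] [IsTotallyComplex F] [IsGalois ℚ F],
    ∃ A₀ : ℕ, ∀ (A N : ℕ) (m : ℕ → ℝ) (R ε₁ : ℝ), A₀ ≤ A →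
    0 < 1 + pm N m (1 / 2) → 0 < R → 0 < ε₁ → ε₁ < 1 / 2 →
    ∀ ε : ℝ, 0 < ε → ∃ T₀ : ℝ, 0 < T₀ ∧ ∀ T : ℝ, T₀ ≤ T →
    ∃ x₀ : ℝ, ∀ (x : ℝ) (q : ℕ), x₀ ≤ x → Sp F A x q →
      (∀ χ ∈ Pr F (qi F q),
        (CZ (Zx χ) (VQ (nrComplexPlaces F) N m (cB F (qi F q)) (Zx χ)) 0 T).Finite) ∧
      (1 - Real.log (cQ N m R ((1 - 2 * ε₁) / 2)) / R - ε) *
          (T / Real.pi * ((Module.finrank ℚ F : ℝ) / 2 * Real.log q)) * (Pr F (qi F q)).ncard ≤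
        ∑ᶠ χ ∈ Pr F (qi F q),
          ((CZ (Zx χ) (VQ (nrComplexPlaces F) N m (cB F (qi F q)) (Zx χ)) 0 T).ncard : ℝ)

/-- (FHz) the proportion of the simple zeros on the critical line. -/
def T_FHz : Prop :=
  ∀ (F : Type) [Field F] [NumberField F] [IsTotallyComplex F] [IsGalois ℚ F],
    ∃ A₀ : ℕ, ∀ A : ℕ, A₀ ≤ A → ∃ T₀ : ℝ, 0 < T₀ ∧ ∀ T : ℝ, T₀ ≤ T →
    ∃ x₀ : ℝ, ∀ (x : ℝ) (q : ℕ), x₀ ≤ x → Sp F A x q →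
      (∀ χ ∈ Pr F (qi F q), (SZ (Zx χ) 0 T).Finite ∧
        ((SZ (Zx χ) 0 T).ncard : ℝ) ≤ zc (Zx χ) (St T)) ∧
      345 / 1000 * (T / Real.pi * ((Module.finrank ℚ F : ℝ) / 2 * Real.log q)) *
          (Pr F (qi F q)).ncard ≤
        ∑ᶠ χ ∈ Pr F (qi F q), ((SZ (Zx χ) 0 T).ncard : ℝ)

/-- (TFz) from the ray class characters to the irreducible characters. -/
def T_TFz : Prop :=
  ∀ (F : Type) [Field F] [NumberField F] [IsTotallyComplex F] [IsGalois ℚ F] (A : ℕ) (ε : ℝ),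
    1 ≤ A → 0 < ε → ∃ x₀ : ℝ, ∀ (x : ℝ) (q : ℕ), x₀ ≤ x → Sp F A x q →
      ∀ (L : Type) [Field L] [NumberField L] [Algebra F L] [IsGalois ℚ L],
      Pool.Agent.H37.CA.IsRCF F L (qi F q) →
      (Pool.Agent.H37.CA.Irr (L ≃ₐ[ℚ] L)).Finite ∧
      ∃ (U : Set ((L ≃ₐ[ℚ] L) → ℂ)) (Λ : ((L ≃ₐ[ℚ] L) → ℂ) → ℂ → ℂ),
        U ⊆ Pool.Agent.H37.CA.Irr (L ≃ₐ[ℚ] L) ∧
        (1 - ε) * (Pool.Agent.H37.CA.Irr (L ≃ₐ[ℚ] L)).ncard ≤ U.ncard ∧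
        (∀ f ∈ U, f 1 = Module.finrank ℚ F ∧ Pool.Agent.H37.CA.nu f = 0 ∧
          (∃ χ ∈ Pr F (qi F q), Λ f = Zx χ) ∧ Differentiable ℂ (Λ f) ∧
          ∀ (D : Pool.Agent.H37.CA.Frb L) (V : Type) [AddCommGroup V] [Module ℂ V]
            [FiniteDimensional ℂ V] (ρ : Representation ℂ (L ≃ₐ[ℚ] L) V), f = ρ.character →
            ∀ s : ℂ, 1 < s.re → HasProd (fun p => (D.rep V ρ).euler p s) (Λ f s)) ∧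
        (Module.finrank ℚ F : ℝ) * U.ncard ≤ (1 + ε) * (Pr F (qi F q)).ncard ∧
        ∀ (w : (ℂ → ℂ) → ℝ) (W : ℝ), (∀ χ ∈ Pr F (qi F q), 0 ≤ w (Zx χ) ∧ w (Zx χ) ≤ W) →
          ∑ᶠ χ ∈ Pr F (qi F q), w (Zx χ) ≤
            (Module.finrank ℚ F : ℝ) * (∑ᶠ f ∈ U, w (Λ f)) + ε * W * (Pr F (qi F q)).ncard

/-- (FGz) the zeros of the Artin `L`-functions. -/
def T_FGz : Prop :=
  ∀ (F : Type) [Field F] [NumberField F] [IsTotallyComplex F] [IsGalois ℚ F],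
    ∃ A₀ : ℕ, ∀ (A : ℕ) (ε : ℝ), A₀ ≤ A → 0 < ε → ∃ T₀ : ℝ, 0 < T₀ ∧ ∀ T : ℝ, T₀ ≤ T →
    ∃ x₀ : ℝ, ∀ (x : ℝ) (q : ℕ), x₀ ≤ x → Sp F A x q →
      ∀ (L : Type) [Field L] [NumberField L] [Algebra F L] [IsGalois ℚ L],
      Pool.Agent.H37.CA.IsRCF F L (qi F q) →
      (Pool.Agent.H37.CA.Irr (L ≃ₐ[ℚ] L)).Finite ∧
      ∃ (U : Set ((L ≃ₐ[ℚ] L) → ℂ)) (Λ : ((L ≃ₐ[ℚ] L) → ℂ) → ℂ → ℂ),
        U ⊆ Pool.Agent.H37.CA.Irr (L ≃ₐ[ℚ] L) ∧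
        (1 - ε) * (Pool.Agent.H37.CA.Irr (L ≃ₐ[ℚ] L)).ncard ≤ U.ncard ∧ 0 < U.ncard ∧
        (∀ f ∈ U, f 1 = Module.finrank ℚ F ∧ Pool.Agent.H37.CA.nu f = 0 ∧
          Differentiable ℂ (Λ f) ∧
          (∀ (D : Pool.Agent.H37.CA.Frb L) (V : Type) [AddCommGroup V] [Module ℂ V]
            [FiniteDimensional ℂ V] (ρ : Representation ℂ (L ≃ₐ[ℚ] L) V), f = ρ.character →
            ∀ s : ℂ, 1 < s.re → HasProd (fun p => (D.rep V ρ).euler p s) (Λ f s)) ∧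
          {ρ : ℂ | ρ ∈ St T ∧ Λ f ρ = 0}.Finite ∧
          zc (Λ f) (St T) ≤
            (1 + ε) * (T / Real.pi * ((Module.finrank ℚ F : ℝ) / 2 * Real.log q))) ∧
        (345 / 1000 - ε) *
            (T / Real.pi * ((Module.finrank ℚ F : ℝ) / 2 * Real.log q)) * U.ncard ≤
          ∑ᶠ f ∈ U, ((SZ (Λ f) 0 T).ncard : ℝ) ∧
        (345 / 1000 - ε) * (∑ᶠ f ∈ U, zc (Λ f) (St T)) ≤
          ∑ᶠ f ∈ U, ((SZ (Λ f) 0 T).ncard : ℝ)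

/-- (MAINz) central values and zeros for a cofinal family. -/
def T_MAINz : Prop :=
  ∀ (F : Type) [Field F] [NumberField F] [IsTotallyComplex F] [IsGalois ℚ F] (ε : ℝ),
    0 < ε → ∃ T₀ : ℝ, 0 < T₀ ∧ ∀ (T : ℝ) (N : ℕ), T₀ ≤ T →
    ∃ q : ℕ, N ≤ q ∧ Squarefree q ∧ (∀ p ∈ q.primeFactors, N ≤ p ∧ Spl F p) ∧
      ∀ (L : Type) [Field L] [NumberField L] [Algebra F L] [IsGalois ℚ L],
      Pool.Agent.H37.CA.IsRCF F L (qi F q) →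
      (Pool.Agent.H37.CA.Irr (L ≃ₐ[ℚ] L)).Finite ∧
      (1 / 3 - ε) * (Pool.Agent.H37.CA.Irr (L ≃ₐ[ℚ] L)).ncard ≤
        ({f | f ∈ Pool.Agent.H37.CA.Irr (L ≃ₐ[ℚ] L) ∧ f 1 = Module.finrank ℚ F ∧
          Pool.Agent.H37.CA.nu f = 0 ∧ ∀ D : Pool.Agent.H37.CA.Frb L,
            Pool.Agent.H37.CA.NV D f}.ncard : ℝ) ∧
      ∃ (U : Set ((L ≃ₐ[ℚ] L) → ℂ)) (Λ : ((L ≃ₐ[ℚ] L) → ℂ) → ℂ → ℂ),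
        U ⊆ Pool.Agent.H37.CA.Irr (L ≃ₐ[ℚ] L) ∧
        (1 - ε) * (Pool.Agent.H37.CA.Irr (L ≃ₐ[ℚ] L)).ncard ≤ U.ncard ∧ 0 < U.ncard ∧
        (∀ f ∈ U, f 1 = Module.finrank ℚ F ∧ Pool.Agent.H37.CA.nu f = 0 ∧
          Differentiable ℂ (Λ f) ∧
          (∀ (D : Pool.Agent.H37.CA.Frb L) (V : Type) [AddCommGroup V] [Module ℂ V]
            [FiniteDimensional ℂ V] (ρ : Representation ℂ (L ≃ₐ[ℚ] L) V), f = ρ.character →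
            ∀ s : ℂ, 1 < s.re → HasProd (fun p => (D.rep V ρ).euler p s) (Λ f s)) ∧
          {ρ : ℂ | ρ ∈ St T ∧ Λ f ρ = 0}.Finite ∧
          zc (Λ f) (St T) ≤
            (1 + ε) * (T / Real.pi * ((Module.finrank ℚ F : ℝ) / 2 * Real.log q))) ∧
        (345 / 1000 - ε) *
            (T / Real.pi * ((Module.finrank ℚ F : ℝ) / 2 * Real.log q)) * U.ncard ≤
          ∑ᶠ f ∈ U, ((SZ (Λ f) 0 T).ncard : ℝ) ∧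
        (345 / 1000 - ε) * (∑ᶠ f ∈ U, zc (Λ f) (St T)) ≤
          ∑ᶠ f ∈ U, ((SZ (Λ f) 0 T).ncard : ℝ)

end Pool.Agent.H20.SM
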