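import Pool.Agent.H20.SM.Defs

/-!
# A cofinal family of Galois extensions: targets (characters, relations, moments, irreducible
characters)
-/

set_option autoImplicit false

open NumberField NumberField.InfinitePlace Complex Filter Topology MeasureTheory

namespace Pool.Agent.H20.SM

open Pool.Agent.H28.RC Pool.Agent.H25.HK Pool.Agent.H37.CV

/-! ### A. The moduli -/

/-- (POOL) there are special moduli. -/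
def T_POOL : Prop :=
  ∀ (F : Type) [Field F] [NumberField F] [IsTotallyComplex F] [IsGalois ℚ F] (A : ℕ) (x₀ : ℝ),
    ∃ (x : ℝ) (q : ℕ), x₀ ≤ x ∧ Sp F A x q

/-- (SPL) primes which split completely. -/
def T_SPL : Prop :=
  ∀ (F : Type) [Field F] [NumberField F] [IsGalois ℚ F] (p : ℕ), Spl F p →
    ({P : Ideal (𝓞 F) | P.IsPrime ∧ (p : 𝓞 F) ∈ P}.Finite ∧
      (∀ P : Ideal (𝓞 F), P.IsPrime → (p : 𝓞 F) ∈ P → P ≠ ⊥ ∧ Ideal.absNorm P = p) ∧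
      (∀ x : 𝓞 F, (∀ P : Ideal (𝓞 F), P.IsPrime → (p : 𝓞 F) ∈ P → x ∈ P) →
        x ∈ Ideal.span {(p : 𝓞 F)}) ∧
      ∀ (P : Ideal (𝓞 F)) (σ : F ≃ₐ[ℚ] F), P.IsPrime → (p : 𝓞 F) ∈ P →
        Pool.Agent.H37.CA.cj σ P = P → σ = 1)

open scoped Classical in
/-- (CRT) the squarefree ideals which divide `q`. -/
def T_CRT : Prop :=
  ∀ (F : Type) [Field F] [NumberField F] [IsGalois ℚ F] (q : ℕ), Sq F q →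
    (∀ d : Ideal (𝓞 F), qi F q ≤ d → d = ∏ P ∈ pf d, P.1 ∧ nm d = nS np (pf d) ∧
      pf d ⊆ pf (qi F q)) ∧
    (∀ S : Finset (PrI F), S ⊆ pf (qi F q) → qi F q ≤ idS S ∧ pf (idS S) = S) ∧
    (∀ P : PrI F, P ∈ pf (qi F q) ↔ ∃ p ∈ q.primeFactors, (p : 𝓞 F) ∈ P.1) ∧
    (∀ p ∈ q.primeFactors, ((pf (qi F q)).filter fun P => (p : 𝓞 F) ∈ P.1).card =
      Module.finrank ℚ F) ∧
    (∀ p ∈ q.primeFactors, ∀ P ∈ pf (qi F q), (p : 𝓞 F) ∈ P.1 → np P = p) ∧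
    nm (qi F q) = (q : ℝ) ^ Module.finrank ℚ F

/-- (U1) few units modulo `q`. -/
def T_U1 : Prop :=
  ∀ (F : Type) [Field F] [NumberField F] [IsGalois ℚ F], ∃ w r : ℕ, 1 ≤ w ∧
    ∀ (q k : ℕ), Sq F q → 1 ≤ k → (∀ p ∈ q.primeFactors, p - 1 ∣ k) →
      ∀ d : Ideal (𝓞 F), qi F q ≤ d → uc d ≤ w * k ^ r

/-- (U2) units modulo a divisor of `q`. -/
def T_U2 : Prop :=
  ∀ (F : Type) [Field F] [NumberField F] [IsTotallyComplex F] [IsGalois ℚ F] (q : ℕ), Sq F q →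
    ∀ d : Ideal (𝓞 F), qi F q ≤ d →
      (uc (qi F q) : ℝ) * nm d * pd q d ≤ uc d * nm (qi F q)

/-- (PHI) Euler's function of `q`. -/
def T_PHI : Prop :=
  ∀ (F : Type) [Field F] [NumberField F] [IsTotallyComplex F] [IsGalois ℚ F] (A : ℕ),
    ∃ x₀ : ℝ, ∀ (x : ℝ) (q : ℕ), x₀ ≤ x → Sp F A x q →
      nm (qi F q) ≤ 2 * (Nat.card (𝓞 F ⧸ qi F q)ˣ : ℝ)

/-- (NCR) the numbers of the characters. -/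
def T_NCR : Prop :=
  ∀ (F : Type) [Field F] [NumberField F] [IsTotallyComplex F] [IsGalois ℚ F],
    ∃ (C : ℝ) (E : ℕ), 1 ≤ C ∧ 1 ≤ E ∧ ∀ A : ℕ, ∃ x₀ : ℝ, ∀ (x : ℝ) (q : ℕ), x₀ ≤ x →
      Sp F A x q → 0 < nc (qi F q) (qi F q) ∧
      nm (qi F q) ≤ x ^ E * nc (qi F q) (qi F q) ∧
      ∀ d : Ideal (𝓞 F), qi F q ≤ d → (uc d : ℝ) ≤ x ^ E ∧
        (nc (qi F q) d : ℝ) * uc d ≤ C * nm d ∧
        (nc (qi F q) d : ℝ) * pd q d ≤ C * nc (qi F q) (qi F q)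

/-- (PAR) the sizes of the parameters. -/
def T_PAR : Prop :=
  ∀ (F : Type) [Field F] [NumberField F] [IsTotallyComplex F] [IsGalois ℚ F] (A : ℕ),
    ∃ x₀ : ℝ, ∀ (x : ℝ) (q : ℕ), x₀ ≤ x → Sp F A x q →
      Real.log x ^ (A + 1) / 2 ≤ Real.log q ∧ Real.log q ≤ 2 * Real.log x ^ (A + 1) ∧
      rc (qi F q) ≤ 2 * Module.finrank ℚ F * Real.log x ^ A / Real.sqrt x ∧
      Real.log (nm (qi F q)) = Module.finrank ℚ F * Real.log q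

/-- (IEq) primitive characters by inclusion and exclusion. -/
def T_IEq : Prop :=
  ∀ (F : Type) [Field F] [NumberField F] [IsTotallyComplex F] [IsGalois ℚ F] (q : ℕ), Sq F q →
    (Pr F (qi F q)).Finite ∧ ∃ (T : Finset (Ideal (𝓞 F))) (σ : Ideal (𝓞 F) → ℤ),
      qi F q ∈ T ∧ σ (qi F q) = 1 ∧
      (∀ d ∈ T, qi F q ≤ d ∧ |σ d| ≤ 1 ∧ (d ≠ qi F q → (Pd q d).Nonempty)) ∧
      (∀ R : Finset ℕ, (T.filter fun d => Pd q d = R).card ≤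
        2 ^ (Module.finrank ℚ F * R.card)) ∧
      ∀ f : (Ideal (𝓞 F) → ℂ) → ℂ, ∑ᶠ χ ∈ Pr F (qi F q), f χ.ψ =
        ∑ d ∈ T, (σ d : ℂ) * ∑ᶠ ψ ∈ Ch (qi F q) d, f ψ

/-- (SND) the sum over the proper divisors. -/
def T_SND : Prop :=
  ∀ (n A : ℕ), ∃ x₀ : ℝ, ∀ (x : ℝ) (R : Finset ℕ), x₀ ≤ x → (∀ p ∈ R, Real.sqrt x ≤ (p : ℝ)) →
    (R.card : ℝ) ≤ 2 * Real.log x ^ A →
    ∑ S ∈ R.powerset.erase ∅, (2 : ℝ) ^ (n * S.card) * (∏ p ∈ S, (p : ℝ)) ^ (-(3 / 4) : ℝ) ≤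
      x ^ (-(1 / 4) : ℝ)

/-- (PNC) almost all characters are primitive. -/
def T_PNC : Prop :=
  ∀ (F : Type) [Field F] [NumberField F] [IsTotallyComplex F] [IsGalois ℚ F] (A : ℕ) (ε : ℝ),
    0 < ε → ∃ x₀ : ℝ, ∀ (x : ℝ) (q : ℕ), x₀ ≤ x → Sp F A x q →
      (1 - ε) * (nc (qi F q) (qi F q) : ℝ) ≤ ((Pr F (qi F q)).ncard : ℝ) ∧
      ((Pr F (qi F q)).ncard : ℝ) ≤ (1 + ε) * (nc (qi F q) (qi F q) : ℝ)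

/-! ### B. The relations -/

/-- (NCG) the congruence between the norms. -/
def T_NCG : Prop :=
  ∀ (F : Type) [Field F] [NumberField F] [IsTotallyComplex F] [IsGalois ℚ F] (q : ℕ), Sq F q →
    ∀ (d : Ideal (𝓞 F)), qi F q ≤ d → ∀ p ∈ CP (qi F q) d,
      ((qd q d : ℤ) ∣ (Ideal.absNorm p.1 : ℤ) - Ideal.absNorm p.2) ∧
      (nm p.1 * nm p.2 < qd q d → Ideal.absNorm p.1 = Ideal.absNorm p.2) ∧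
      (p.2 = ⊤ → p.1 = ⊤ ∨ (qd q d : ℝ) < nm p.1)

/-- (SNO) pairs of ideals with the same norm. -/
def T_SNO : Prop :=
  ∀ (K : Type) [Field K] [NumberField K], ∃ (C : ℝ) (E : ℕ), ∀ (H : ℝ)
    (X : Finset (Ideal (𝓞 K) × Ideal (𝓞 K))), 1 ≤ H →
    (∀ p ∈ X, p.1 ≠ ⊥ ∧ p.2 ≠ ⊥ ∧ Ideal.absNorm p.1 = Ideal.absNorm p.2 ∧ nm p.1 ≤ H) →
    ∑ p ∈ X, wt p * (1 + Real.log (nm p.1 * nm p.2)) ^ 2 ≤ C * (1 + Real.log H) ^ E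

/-- (CHT) sums over the relations, a chain of ranges. -/
def T_CHT : Prop :=
  ∀ (K : Type) [Field K] [NumberField K] (ε : ℝ), 0 < ε → ε ≤ 1 / 64 → ∃ C : ℝ, 0 < C ∧
    ∀ (m d : Ideal (𝓞 K)) (L Y : ℝ) (X : Finset (Ideal (𝓞 K) × Ideal (𝓞 K))), m ≠ ⊥ → m ≤ d →
    2 ≤ L → 1 ≤ Y → (uc d : ℝ) ≤ L ^ (1 / 16 : ℝ) →
    (∀ p ∈ X, p ∈ CP m d ∧ L ≤ nm p.1 * nm p.2) →
    ∑ p ∈ X, wt p * min 1 ((Y / (nm p.1 * nm p.2)) ^ 2) ≤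
      C * (L ^ (-(1 / 4) : ℝ) + Y ^ (1 / 2 + ε) * uc d / nm d)

/-- (CH1) sums over all relations. -/
def T_CH1 : Prop :=
  ∀ (K : Type) [Field K] [NumberField K] (ε : ℝ), 0 < ε → ε ≤ 1 / 64 → ∃ C : ℝ, 0 < C ∧
    ∀ (m d : Ideal (𝓞 K)) (Y : ℝ) (X : Finset (Ideal (𝓞 K) × Ideal (𝓞 K))), m ≠ ⊥ → m ≤ d →
    1 ≤ Y → (∀ p ∈ X, p ∈ CP m d) →
    ∑ p ∈ X, wt p * min 1 ((Y / (nm p.1 * nm p.2)) ^ 2) ≤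
      C * Y ^ ε * uc d * (1 + Y ^ (1 / 2 : ℝ) / nm d)

/-! ### C. The moments -/

/-- (SMO) the second moment opened. -/
def T_SMOr : Prop :=
  ∀ (K : Type) [Field K] [NumberField K] [IsTotallyComplex K] (m d : Ideal (𝓞 K)) (Q M : ℝ),
    m ≠ ⊥ → m ≤ d → 0 < Q → 1 ≤ M →
    Summable (fun p : CP m d => ‖Dr m Q M p.1.1 p.1.2‖) ∧
    ∑ᶠ ψ ∈ Ch m d, A2 Q ψ * ((‖mol M ψ‖ ^ 2 : ℝ) : ℂ) =
      nc m d * ∑' p : CP m d, Dr m Q M p.1.1 p.1.2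

/-- (FMO) the first moment opened. -/
def T_FMOr : Prop :=
  ∀ (K : Type) [Field K] [NumberField K] [IsTotallyComplex K] (m d : Ideal (𝓞 K)) (X M : ℝ),
    m ≠ ⊥ → m ≤ d → 0 < X → 1 ≤ M →
    Summable (fun n : {n : Ideal (𝓞 K) // (n, ⊤) ∈ CP m d} =>
      ‖lam X M n.1‖ * nm n.1 ^ (-(1 / 2) : ℝ)) ∧
    ∑ᶠ ψ ∈ Ch m d, A1 X ψ * mol M ψ =
      nc m d * ∑' n : {n : Ideal (𝓞 K) // (n, ⊤) ∈ CP m d},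
        lam X M n.1 * ((nm n.1 ^ (-(1 / 2) : ℝ) : ℝ) : ℂ)

/-- (DTr) the trivial bound of `Dr`. -/
def T_DTr : Prop :=
  ∀ (K : Type) [Field K] [NumberField K] [IsTotallyComplex K] (A : ℕ), ∃ C : ℝ, 0 < C ∧
    ∀ (m : Ideal (𝓞 K)) (Q M : ℝ) (I J : Ideal (𝓞 K)), 1 ≤ Q → 1 ≤ M → I ≠ ⊥ → J ≠ ⊥ →
      I ⊔ J = ⊤ →
      ‖Dr m Q M I J‖ ≤ C * wt (I, J) *
        (1 + Real.log Q + Real.log M) ^ 4 * min 1 ((Q * M ^ 2 / (nm I * nm J)) ^ A)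

/-- (SQc) the sum over the ideals prime to `m`. -/
def T_SQc : Prop :=
  ∀ (K : Type) [Field K] [NumberField K] [IsTotallyComplex K], ∃ C : ℝ, 0 < C ∧
    ∀ (m : Ideal (𝓞 K)) (Z : ℝ), m ≠ ⊥ → 0 < Z →
      ‖Sm m Z - Sm (K := K) ⊤ Z‖ ≤ C * (1 + max (Real.log Z) 0) * rc m

/-- (RS) the primes of `m` do not matter. -/
def T_RS : Prop :=
  ∀ (K : Type) [Field K] [NumberField K] [IsTotallyComplex K], ∃ (C : ℝ) (B : ℕ), 0 < C ∧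
    ∀ (m : Ideal (𝓞 K)) (Q M : ℝ) (I J : Ideal (𝓞 K)), m ≠ ⊥ → 1 ≤ Q → 1 ≤ M → I ≠ ⊥ →
      J ≠ ⊥ → I ⊔ J = ⊤ → I ⊔ m = ⊤ → J ⊔ m = ⊤ →
      ‖Dr m Q M I J - Dd (K := K) ⊤ Q M I J‖ ≤ C * wt (I, J) *
        (1 + Real.log Q + Real.log M) ^ B * rc m

/-- (DAg) the diagonal term. -/
def T_DAg : Prop :=
  ∀ (K : Type) [Field K] [NumberField K] [IsTotallyComplex K] (δ₀ C₀ η : ℝ), 0 < δ₀ → 0 < C₀ →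
    0 < η → ∃ M₀ : ℝ, ∀ M Q : ℝ, M₀ ≤ M → M ^ (2 + δ₀) ≤ Q → Q ≤ M ^ C₀ →
      (2 * Dd (K := K) ⊤ Q M ⊤ ⊤).re ≤ 1 + Real.log Q / Real.log M + η

/-- (DEg) the terms with a small relation. -/
def T_DEg : Prop :=
  ∀ (K : Type) [Field K] [NumberField K] [IsTotallyComplex K] (δ₀ C₀ : ℝ), 0 < δ₀ → 0 < C₀ →
    ∃ (δ C M₀ : ℝ), 0 < δ ∧ 0 < C ∧ ∀ M Q : ℝ, M₀ ≤ M → M ^ (2 + δ₀) ≤ Q → Q ≤ M ^ C₀ →
      ∀ I J : Ideal (𝓞 K), I ≠ ⊥ → J ≠ ⊥ → I ≠ ⊤ → J ≠ ⊤ → I ⊔ J = ⊤ → nm I * nm J ≤ M ^ δ →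
      ‖Dd (K := K) ⊤ Q M I J‖ ≤ C / Real.log M * wt (I, J) *
          (1 + Real.log (nm I * nm J)) ^ 2

/-- (SRq) the relations modulo `q`. -/
def T_SRq : Prop :=
  ∀ (F : Type) [Field F] [NumberField F] [IsTotallyComplex F] [IsGalois ℚ F],
    ∃ A₀ : ℕ, ∀ (A : ℕ) (ε₁ η : ℝ), A₀ ≤ A → 0 < ε₁ → ε₁ < 1 / 2 → 0 < η →
    ∃ x₀ : ℝ, ∀ (x : ℝ) (q : ℕ), x₀ ≤ x → Sp F A x q →
      ∀ X : Finset (Ideal (𝓞 F) × Ideal (𝓞 F)),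
      (∀ p ∈ X, p ∈ CP (qi F q) (qi F q) ∧ p ≠ (⊤, ⊤)) →
      ∑ p ∈ X, ‖Dr (qi F q) (cnd F (qi F q)) (Mo F ε₁ q) p.1 p.2‖ ≤ η

/-- (SRd) the relations modulo a proper divisor of `q`. -/
def T_SRd : Prop :=
  ∀ (F : Type) [Field F] [NumberField F] [IsTotallyComplex F] [IsGalois ℚ F]
    (A : ℕ) (ε₁ : ℝ), 1 ≤ A → 0 < ε₁ → ε₁ < 1 / 2 →
    ∃ x₀ : ℝ, ∀ (x : ℝ) (q : ℕ), x₀ ≤ x → Sp F A x q →
      ∀ d : Ideal (𝓞 F), qi F q ≤ d → d ≠ qi F q →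
      ∀ X : Finset (Ideal (𝓞 F) × Ideal (𝓞 F)), (∀ p ∈ X, p ∈ CP (qi F q) d) →
      (nc (qi F q) d : ℝ) *
        ∑ p ∈ X, ‖Dr (qi F q) (cnd F (qi F q)) (Mo F ε₁ q) p.1 p.2‖ ≤
      nc (qi F q) (qi F q) * (x ^ (1 / 8 : ℝ) * pd q d ^ (-(3 / 4) : ℝ) +
        nm (qi F q) ^ (-(ε₁ / 8)))

/-- (SMq) the second moment. -/
def T_SMq : Prop :=
  ∀ (F : Type) [Field F] [NumberField F] [IsTotallyComplex F] [IsGalois ℚ F],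
    ∃ A₀ : ℕ, ∀ (A : ℕ) (ε₁ η : ℝ), A₀ ≤ A → 0 < ε₁ → ε₁ < 1 / 2 → 0 < η →
    ∃ x₀ : ℝ, ∀ (x : ℝ) (q : ℕ), x₀ ≤ x → Sp F A x q →
      ∑ᶠ χ ∈ Pr F (qi F q), ‖cval χ‖ ^ 2 * ‖mol (Mo F ε₁ q) χ.ψ‖ ^ 2 ≤
        (1 + 1 / (1 / 2 - ε₁) + η) * nc (qi F q) (qi F q)

/-- (F1q) the sums of the first moment. -/
def T_F1q : Prop :=
  ∀ (F : Type) [Field F] [NumberField F] [IsTotallyComplex F] [IsGalois ℚ F]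
    (A : ℕ) (ε₁ η : ℝ), 1 ≤ A → 0 < ε₁ → ε₁ < 1 / 2 → 0 < η →
    ∃ x₀ : ℝ, ∀ (x : ℝ) (q : ℕ), x₀ ≤ x → Sp F A x q →
      ‖(∑' n : {n : Ideal (𝓞 F) // (n, ⊤) ∈ CP (qi F q) (qi F q)},
        lam (Xr F q) (Mo F ε₁ q) n.1 * ((nm n.1 ^ (-(1 / 2) : ℝ) : ℝ) : ℂ)) - 1‖ ≤ η ∧
      ∀ d : Ideal (𝓞 F), qi F q ≤ d → d ≠ qi F q → (nc (qi F q) d : ℝ) *
        ‖∑' n : {n : Ideal (𝓞 F) // (n, ⊤) ∈ CP (qi F q) d},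
          lam (Xr F q) (Mo F ε₁ q) n.1 * ((nm n.1 ^ (-(1 / 2) : ℝ) : ℝ) : ℂ)‖ ≤
      nc (qi F q) (qi F q) * (x ^ (1 / 8 : ℝ) * pd q d ^ (-(3 / 4) : ℝ) +
        nm (qi F q) ^ (-(1 / 32) : ℝ))

/-- (FMq) the first moment. -/
def T_FMq : Prop :=
  ∀ (F : Type) [Field F] [NumberField F] [IsTotallyComplex F] [IsGalois ℚ F]
    (A : ℕ) (ε₁ η : ℝ), 1 ≤ A → 0 < ε₁ → ε₁ < 1 / 2 → 0 < η →
    ∃ x₀ : ℝ, ∀ (x : ℝ) (q : ℕ), x₀ ≤ x → Sp F A x q →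
      ‖(∑ᶠ χ ∈ Pr F (qi F q), cval χ * mol (Mo F ε₁ q) χ.ψ) - nc (qi F q) (qi F q)‖ ≤
        η * nc (qi F q) (qi F q)

/-- (FINq) the proportion of the primitive characters. -/
def T_FINq : Prop :=
  ∀ (F : Type) [Field F] [NumberField F] [IsTotallyComplex F] [IsGalois ℚ F],
    ∃ A₀ : ℕ, ∀ (A : ℕ) (ε : ℝ), A₀ ≤ A → 0 < ε →
    ∃ x₀ : ℝ, ∀ (x : ℝ) (q : ℕ), x₀ ≤ x → Sp F A x q →
      (Pr F (qi F q)).Finite ∧ 0 < (Pr F (qi F q)).ncard ∧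
      (∀ χ ∈ Pr F (qi F q), ∃ Z, IsEnt χ Z) ∧
      (1 / 3 - ε) * (Pr F (qi F q)).ncard ≤
        ({χ | χ ∈ Pr F (qi F q) ∧ ∀ Z, IsEnt χ Z → Z (1 / 2) ≠ 0}.ncard : ℝ)

/-! ### D. The irreducible characters -/

open Pool.Agent.H37.CA

/-- (NGN) the characters which are equal to a conjugate. -/
def T_NGNq : Prop :=
  ∀ (F L : Type) [Field F] [NumberField F] [Field L] [NumberField L] [Algebra F L]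
    [IsTotallyComplex F] [IsGalois ℚ F] [IsGalois ℚ L] (q : ℕ), 2 ≤ q →
    ∀ β : (Ideal (𝓞 F) → ℂ) → (HF F L →* ℂˣ), Cor F L (qi F q) β →
    ∀ ψ ∈ Ch (qi F q) (qi F q), β ψ ∉ Gen (HF F L) →
      ∃ σ : F ≃ₐ[ℚ] F, σ ≠ 1 ∧ ∀ I : Ideal (𝓞 F), ψ (cj σ I) = ψ I

/-- (NGY) the characters whose inverse is a conjugate. -/
def T_NGYq : Prop :=
  ∀ (F L : Type) [Field F] [NumberField F] [Field L] [NumberField L] [Algebra F L]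
    [IsTotallyComplex F] [IsGalois ℚ F] [IsGalois ℚ L] (q : ℕ), 2 ≤ q →
    ∀ β : (Ideal (𝓞 F) → ℂ) → (HF F L →* ℂˣ), Cor F L (qi F q) β →
    ∀ ψ ∈ Ch (qi F q) (qi F q), β ψ ∉ Nsd (HF F L) →
      ∃ σ : F ≃ₐ[ℚ] F, ∀ I : Ideal (𝓞 F), I ≠ ⊥ → I ⊔ qi F q = ⊤ → ψ (cj σ I) * ψ I = 1

/-- (FXP) fixed points modulo `q`. -/
def T_FXPq : Prop :=
  ∀ (F : Type) [Field F] [NumberField F] [IsGalois ℚ F] (q : ℕ), Sq F q →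
    ∀ σ : F ≃ₐ[ℚ] F, σ ≠ 1 →
    {y : 𝓞 F ⧸ qi F q | ∃ x : 𝓞 F, Ideal.Quotient.mk (qi F q) x = y ∧ σ • x - x ∈ qi F q}.ncard ^ 2 ≤
      q ^ Module.finrank ℚ F

/-- (FXY) the residue classes `y` modulo `q` with `σ(y) y = 1`. -/
def T_FXYq : Prop :=
  ∀ (F : Type) [Field F] [NumberField F] [IsGalois ℚ F] (q : ℕ), Sq F q →
    (∀ p ∈ q.primeFactors, 5 ≤ p) → ∀ σ : F ≃ₐ[ℚ] F,
    {y : 𝓞 F ⧸ qi F q | ∃ x : 𝓞 F, Ideal.Quotient.mk (qi F q) x = y ∧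
      (σ • x) * x - 1 ∈ qi F q}.ncard ^ 2 ≤ q ^ Module.finrank ℚ F

/-- (CFX) the number of the characters fixed by `σ`. -/
def T_CFXq : Prop :=
  ∀ (F : Type) [Field F] [NumberField F] [IsTotallyComplex F] [IsGalois ℚ F], ∃ C : ℝ,
    ∀ q : ℕ, Sq F q → ∀ σ : F ≃ₐ[ℚ] F, σ ≠ 1 →
    ({ψ | ψ ∈ Ch (qi F q) (qi F q) ∧ ∀ I : Ideal (𝓞 F), ψ (cj σ I) = ψ I}.ncard : ℝ) ≤
      C * (q : ℝ) ^ ((Module.finrank ℚ F : ℝ) / 2)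

/-- (CFY) the number of the characters `ψ` with `ψ^σ ψ = 1`. -/
def T_CFYq : Prop :=
  ∀ (F : Type) [Field F] [NumberField F] [IsTotallyComplex F] [IsGalois ℚ F], ∃ C : ℝ,
    ∀ q : ℕ, Sq F q → (∀ p ∈ q.primeFactors, 5 ≤ p) → ∀ σ : F ≃ₐ[ℚ] F,
    ({ψ | ψ ∈ Ch (qi F q) (qi F q) ∧ ∀ I : Ideal (𝓞 F), I ≠ ⊥ → I ⊔ qi F q = ⊤ →
      ψ (cj σ I) * ψ I = 1}.ncard : ℝ) ≤ C * (q : ℝ) ^ ((Module.finrank ℚ F : ℝ) / 2)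

/-- (CNT) few characters are equal to a conjugate or have an inverse which is a conjugate. -/
def T_CNTq : Prop :=
  ∀ (F : Type) [Field F] [NumberField F] [IsTotallyComplex F] [IsGalois ℚ F] (A : ℕ) (ε : ℝ),
    1 ≤ A → 0 < ε → ∃ x₀ : ℝ, ∀ (x : ℝ) (q : ℕ), x₀ ≤ x → Sp F A x q →
      ∀ (L : Type) [Field L] [NumberField L] [Algebra F L]
      [IsGalois ℚ L] (β : (Ideal (𝓞 F) → ℂ) → (HF F L →* ℂˣ)), Cor F L (qi F q) β →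
      ((Gen (HF F L))ᶜ.ncard : ℝ) ≤ ε * nc (qi F q) (qi F q) ∧
      ((Nsd (HF F L))ᶜ.ncard : ℝ) ≤ ε * nc (qi F q) (qi F q) ∧
        (Nat.card (HF F L →* ℂˣ) : ℝ) = nc (qi F q) (qi F q)

/-- (FI) the proportion of the irreducible characters. -/
def T_FIq : Prop :=
  ∀ (F : Type) [Field F] [NumberField F] [IsTotallyComplex F] [IsGalois ℚ F],
    ∃ A₀ : ℕ, ∀ (A : ℕ) (ε : ℝ), A₀ ≤ A → 0 < ε →
    ∃ x₀ : ℝ, ∀ (x : ℝ) (q : ℕ), x₀ ≤ x → Sp F A x q →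
      ∀ (L : Type) [Field L] [NumberField L] [Algebra F L] [IsGalois ℚ L],
      IsRCF F L (qi F q) → ∀ D : Frb L, (Irr (L ≃ₐ[ℚ] L)).Finite ∧
      (1 / 3 - ε) * (Irr (L ≃ₐ[ℚ] L)).ncard ≤
        ({f | f ∈ Irr (L ≃ₐ[ℚ] L) ∧ f 1 = Module.finrank ℚ F ∧ nu f = 0 ∧ NV D f}.ncard : ℝ)

/-- (MAIN) the theorem. -/
def T_MAIN : Prop :=
  ∀ (F : Type) [Field F] [NumberField F] [IsTotallyComplex F] [IsGalois ℚ F] (ε : ℝ) (N : ℕ),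
    0 < ε → ∃ q : ℕ, N ≤ q ∧ Squarefree q ∧
      ∀ (L : Type) [Field L] [NumberField L] [Algebra F L] [IsGalois ℚ L],
      IsRCF F L (qi F q) → ∀ D : Frb L, (Irr (L ≃ₐ[ℚ] L)).Finite ∧
      (1 / 3 - ε) * (Irr (L ≃ₐ[ℚ] L)).ncard ≤
        ({f | f ∈ Irr (L ≃ₐ[ℚ] L) ∧ f 1 = Module.finrank ℚ F ∧ nu f = 0 ∧ NV D f}.ncard : ℝ)

end Pool.Agent.H20.SM
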